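import Pool.Agent.Lib.MP_a8c702_nt.LT.Elim

/-! Almost diagonal elements of the lattice. -/

namespace Pool.Agent.Lib.MP_a8c702_nt.LT

open Finset

variable {K : Type} [Field K] {h : ℕ} {θ : Fin (h + 1) → K} {S : Finset K}

/-- The vector of sum zero with given last coordinates. -/
def ex (β : Fin h → ℤ) : Fin (h + 1) → ℤ := Fin.cons (-∑ l, β l) β

/-- The difference of two unit vectors. -/
def dv (k l : Fin (h + 1)) : Fin (h + 1) → ℤ := Pi.single k 1 - Pi.single l 1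

theorem sum_dv (k l : Fin (h + 1)) : ∑ j, dv k l j = 0 := by simp [dv]

theorem dv_apply (k l j : Fin (h + 1)) :
    dv k l j = (if j = k then 1 else 0) - if j = l then 1 else 0 := by
  simp [dv, Pi.single_apply]

theorem abs_zero_le {a : Fin (h + 1) → ℤ} (h0 : ∑ j, a j = 0) : |a 0| ≤ ∑ l : Fin h, |a l.succ| := by
  rw [Fin.sum_univ_succ, add_eq_zero_iff_eq_neg] at h0
  rw [h0, abs_neg]
  exact abs_sum_le_sum_abs _ _

theorem abs_tail (hh : 1 ≤ h) {a : Fin (h + 1) → ℤ} (h0 : ∑ j, a j = 0) {B : ℤ}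
    (hB : ∀ l : Fin h, |a l.succ| ≤ B) (j : Fin (h + 1)) : |a j| ≤ h * B := by
  refine Fin.cases ((abs_zero_le h0).trans ?_) (fun l => (hB l).trans ?_) j
  · simpa using sum_le_card_nsmul univ _ B fun l _ => hB l
  · exact le_mul_of_one_le_left ((abs_nonneg _).trans (hB l)) (by exact_mod_cast hh)

theorem sum_off (k : Fin h) {f : Fin h → ℤ} {B : ℤ} (h0 : 0 ≤ B) (hB : ∀ l ≠ k, h * f l ≤ B) :
    ∑ l ∈ univ.erase k, f l ≤ B := by
  have h1 := sum_le_card_nsmul (univ.erase k) _ B fun l hl => hB l (mem_erase.1 hl).1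
  have h2 : (#(univ.erase k) : ℤ) ≤ h := by exact_mod_cast (card_le_univ _).trans (by simp)
  rw [← mul_sum, nsmul_eq_mul] at h1
  exact le_of_mul_le_mul_left (h1.trans (mul_le_mul_of_nonneg_right h2 h0))
    (by exact_mod_cast k.pos)

theorem boxes (hg : Gen θ S) (hs : 2 ≤ #S) {Γ : Type} [Fintype Γ] {χ : (Fin h → ℤ) → Γ}
    (hχ : ∀ β β', χ β = χ β' → ex (β - β') ∈ Lat θ S) {c : ℕ} (hc : 0 < c)
    (hΓ : Fintype.card Γ < (c * #S) ^ h) (k : Fin h) :
    ∃ v ∈ Lat θ S, (∀ j, |v j| ≤ (h * (c * (8 * h)) ^ h : ℕ) * #S) ∧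
      (∀ l : Fin h, l ≠ k → h * (8 * |v l.succ|) ≤ #S) ∧ 3 * #S ≤ 8 * |v k.succ| := by
  have h0 := k.pos
  obtain ⟨w, hw⟩ : ∃ w, w = (c * (8 * h)) ^ h := ⟨_, rfl⟩
  obtain ⟨A, hA⟩ : ∃ A, A = #S / (8 * h) := ⟨_, rfl⟩
  have a1 : 8 * h * A ≤ #S := hA ▸ Nat.mul_div_le _ _
  have a2 : #S < 8 * h * (A + 1) := hA ▸ Nat.lt_mul_div_succ _ (by omega)
  have a3 : 1 ≤ w := hw ▸ Nat.one_le_pow _ _ (by positivity)
  obtain ⟨x, y, b1, b2⟩ := Fintype.exists_ne_map_eq_of_card_lt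
    (fun x : (l : Fin h) → Fin ((if l = k then w else 1) * (A + 1)) => χ fun l => (x l : ℕ))
    (hΓ.trans_le (by
      simp only [Fintype.card_pi, Fintype.card_fin, prod_mul_distrib, prod_ite_eq', mem_univ,
        if_true, prod_const, card_univ]
      rw [hw, ← mul_pow, mul_assoc]
      exact Nat.pow_le_pow_left (Nat.mul_le_mul_left _ a2.le) _))
  have b3 := hχ _ _ b2
  have b4 : ∀ l : Fin h, ex ((fun l => ((x l : ℕ) : ℤ)) - fun l => ((y l : ℕ) : ℤ)) l.succ =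
      (x l : ℕ) - (y l : ℕ) := fun _ => rfl
  generalize ex ((fun l => ((x l : ℕ) : ℤ)) - fun l => ((y l : ℕ) : ℤ)) = v at b3 b4
  have b5 : ∀ l : Fin h, |v l.succ| < ((if l = k then w else 1) * (A + 1) : ℕ) := fun l => by
    have := (x l).2
    have := (y l).2
    rw [b4, abs_lt]
    omega
  have b6 : ∀ l : Fin h, l ≠ k → h * (8 * |v l.succ|) ≤ #S := fun l hl => by
    have := b5 l
    rw [if_neg hl, one_mul] at this
    zify at a1 h0
    push_cast at this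
    nlinarith
  refine ⟨v, b3, fun j => ?_, b6, ?_⟩
  · rw [← hw, Nat.cast_mul, mul_assoc]
    refine abs_tail h0 b3.1 (fun l => (b5 l).le.trans ?_) j
    norm_cast
    exact Nat.mul_le_mul (by split_ifs <;> omega) (by nlinarith)
  · have c1 := hg.min_abs b3 fun e => b1 (funext fun l => Fin.ext (by
      have := b4 l
      rw [e, Pi.zero_apply] at this
      omega))
    have c2 := abs_zero_le b3.1
    have c3 := sum_off k (Int.natCast_nonneg _) b6
    rw [Fin.sum_univ_succ] at c1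
    rw [← add_sum_erase _ _ (mem_univ k)] at c1 c2
    rw [← mul_sum] at c3
    linarith

theorem struct (h c : ℕ) (hh : 2 ≤ h) : ∃ r N s₀ : ℕ, ∀ (K : Type) [Field K] [IsAlgClosed K]
    (p : ℕ) [ExpChar K p] (θ : Fin (h + 1) → K) (S : Finset K) (v : Fin h → Fin (h + 1) → ℤ),
    Gen θ S → s₀ ≤ #S → (∀ k, v k ∈ Lat θ S) → (∀ k j, |v k j| ≤ c * #S) →
    (∀ k l : Fin h, l ≠ k → h * (8 * |v k l.succ|) ≤ #S) → (∀ k, 3 * #S ≤ 8 * |v k k.succ|) →
    ∀ k, ∃ n : ℤ, n ≠ 0 ∧ |n| ≤ N ∧ ∀ j, Str p r (n * v k j) := by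
  obtain ⟨r, N, s₀, h1⟩ := grid (h + 1) c
  obtain ⟨r', N', s₁, h2⟩ := grid (h + 1) (2 * N * c + c)
  refine ⟨r' + N' * r, N', s₀ + s₁ + 1, fun K _ _ p _ θ S v hg hs hv a1 a2 a3 k => ?_⟩
  have hs' : (0 : ℤ) < #S := by omega
  obtain ⟨k₀, k₁, hk⟩ : ∃ k₀ k₁ : Fin h, k₀ ≠ k₁ := ⟨⟨0, by omega⟩, ⟨1, by omega⟩, by simp⟩
  obtain ⟨i, j, b1, b2, b3, b4⟩ := h1 K p θ S hg (by omega) _ (hv k₀) _ (hv k₁)
    (fun e => by have := a3 k₀; rw [e] at this; simp at this; omega) (a1 _) (a1 _)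
  have b5 : (0 : ℤ) ≤ c * #S := by positivity
  obtain ⟨i', j', c1, c2, c3, c4⟩ := h2 K p θ S hg (by omega) (i • v k₀ + j • v k₁)
    (add_mem (zsmul_mem (hv _) _) (zsmul_mem (hv _) _)) _ (hv k)
    (fun e => by
      have d1 := congrArg abs (eq_neg_of_add_eq_zero_left (congrFun e k₀.succ))
      have d2 := congrArg abs (eq_neg_of_add_eq_zero_left (congrFun e k₁.succ))
      simp only [Pi.smul_apply, smul_eq_mul, abs_neg, abs_mul] at d1 d2
      have d3 : ∀ k l : Fin h, l ≠ k → 8 * |v k l.succ| ≤ #S := fun k l hl =>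
        (le_mul_of_one_le_left (by positivity) (by omega)).trans (a2 k l hl)
      have d4 : 3 * |i| ≤ |j| := le_of_mul_le_mul_right (by
        nlinarith [a3 k₀, d3 _ _ hk, abs_nonneg i, abs_nonneg j]) hs'
      have d5 : 3 * |j| ≤ |i| := le_of_mul_le_mul_right (by
        nlinarith [a3 k₁, d3 _ _ hk.symm, abs_nonneg i, abs_nonneg j]) hs'
      have := abs_pos.2 b3
      omega)
    (fun l => by
      refine (abs_add_le _ _).trans ?_
      simp only [Pi.smul_apply, smul_eq_mul, abs_mul]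
      have d1 := mul_le_mul b1 (a1 k₀ l) (abs_nonneg _) (Int.natCast_nonneg _)
      have d2 := mul_le_mul b2 (a1 k₁ l) (abs_nonneg _) (Int.natCast_nonneg _)
      push_cast
      linarith)
    (fun l => (a1 k l).trans (by
      have : (0 : ℤ) ≤ N * (c * #S) := by positivity
      push_cast
      linarith))
  refine ⟨j', c3, c2, fun l => ?_⟩
  simpa using (c4 l).sub ((b4 l).zsmul c1)

theorem split_p (K : Type) [Field K] (p : ℕ) [ExpChar K p] {m : ℕ} (hm : m ≠ 0) :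
    ∃ a n : ℕ, (n : K) ≠ 0 ∧ m = p ^ a * n := by
  rcases ‹ExpChar K p› with _ | hp
  · exact ⟨0, m, Nat.cast_ne_zero.2 hm, by simp⟩
  · obtain ⟨a, n, h1, h2⟩ := Nat.exists_eq_pow_mul_and_not_dvd hm p hp.ne_one
    exact ⟨a, n, fun h => h1 ((CharP.cast_eq_zero_iff K p n).1 h), h2⟩

theorem adj (A : Matrix (Fin h) (Fin h) ℤ) {x : ℕ} (hx : 1 ≤ x) (h1 : ∀ k l, |A k l| ≤ x)
    (h2 : ∀ k, ∑ l ∈ univ.erase k, |A k l| < |A k k|) :
    ∃ (n : ℕ) (B : Matrix (Fin h) (Fin h) ℤ), n ≠ 0 ∧ n ≤ h.factorial * x ^ h ∧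
      (∀ k l, |B k l| ≤ (h.factorial * x ^ h : ℕ)) ∧ B * A = (n : ℤ) • 1 := by
  have a1 : A.det ≠ 0 := fun e => det_ne_zero_of_sum_row_lt_diag
    (A := (Int.castRingHom ℝ).mapMatrix A) (fun k => by
      simp only [RingHom.mapMatrix_apply, Matrix.map_apply, eq_intCast, Real.norm_eq_abs]
      exact_mod_cast h2 k) (by rw [← RingHom.map_det, e, map_zero])
  have a2 : ∀ A' : Matrix (Fin h) (Fin h) ℤ, (∀ k l, |A' k l| ≤ x) →
      |A'.det| ≤ (h.factorial * x ^ h : ℕ) := fun A' h' => by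
    simpa using Matrix.det_le (abv := AbsoluteValue.abs) h'
  refine ⟨A.det.natAbs, A.det.sign • A.adjugate, Int.natAbs_ne_zero.2 a1, ?_, fun k l => ?_, ?_⟩
  · have := a2 A h1
    rw [Int.abs_eq_natAbs] at this
    exact_mod_cast this
  · rw [Matrix.smul_apply, smul_eq_mul, abs_mul, Int.abs_sign_of_ne_zero a1, one_mul,
      Matrix.adjugate_apply]
    refine a2 _ fun i j => ?_
    rw [Matrix.updateRow_apply, Pi.single_apply]
    split_ifs
    · simpa using hx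
    · simp
    · exact h1 i j
  · rw [Matrix.smul_mul, Matrix.adjugate_mul, smul_smul, Int.sign_mul_self_eq_natAbs]

theorem diag (h c : ℕ) (hh : 2 ≤ h) (hc : 0 < c) : ∃ C : ℕ, ∀ (K : Type) [Field K] [IsAlgClosed K]
    (p : ℕ) [ExpChar K p] (θ : Fin (h + 1) → K) (S : Finset K) (Γ : Type) [Fintype Γ]
    (χ : (Fin h → ℤ) → Γ), Gen θ S → C < #S → (∀ β β', χ β = χ β' → ex (β - β') ∈ Lat θ S) →
    Fintype.card Γ < (c * #S) ^ h → ∃ (n e B : ℕ) (ν : Fin (h + 1) → Fin (h + 1) → ℤ),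
      (n : K) ≠ 0 ∧ n ≤ C ∧ p ^ e ≤ C * #S ∧ B < p ^ e ∧ n * ((h + 1) * B) < #S ∧ ν 0 = 0 ∧
      (∀ k j, |ν k j| ≤ B) ∧ ∀ k, ((p : ℤ) ^ e * n) • dv k 0 - ν k ∈ Lat θ S := by
  obtain ⟨c', hc'⟩ : ∃ c', c' = h * (c * (8 * h)) ^ h := ⟨_, rfl⟩
  obtain ⟨r, N, s₀, h1⟩ := struct h c' hh
  obtain ⟨D, hD⟩ : ∃ D : ℕ → ℕ, ∀ t, D t = h.factorial * ((N * c' + 1) * t) ^ h := ⟨_, fun _ => rfl⟩
  obtain ⟨T, h2⟩ := gap (Fin h × Fin h) r fun t =>
    h * (h * D t) * (D t * (h + 1) + t) + (4 * h + 5)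
  refine ⟨D T * (N * c' + 1) + s₀ + 2, fun K _ _ p _ θ S Γ _ χ hg hs hχ hΓ => ?_⟩
  choose v a1 a2 a3 a4 using boxes hg (by omega) hχ hc hΓ
  rw [← hc'] at a2
  choose m b1 b2 b3 using h1 K p θ S v hg (by omega) a1 a2 a3 a4
  obtain ⟨t, e, α, μ, c1, c2, c3, c4, c5⟩ := h2 p #S (fun k => m k.1 * v k.1 k.2.succ) fun k => b3 _ _
  obtain ⟨B, hB⟩ : ∃ B, B = #S / (h * (h * D t) * (D t * (h + 1) + t) + (4 * h + 5)) := ⟨_, rfl⟩
  have d1 : D t * ((h + 1) * (h * (h * D t) * B)) + t * (h * (h * D t) * B) + 4 * (h + 1) * B + B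
      ≤ #S := (le_of_eq (by rw [← hB]; ring)).trans (Nat.mul_div_le _
        (h * (h * D t) * (D t * (h + 1) + t) + (4 * h + 5)))
  have d2 : ∀ k, |μ k| ≤ B := fun k => by
    have := c4 k
    rw [Int.abs_eq_natAbs] at this ⊢
    norm_cast at this ⊢
    rw [hB, Nat.le_div_iff_mul_le (by omega), mul_comm]
    exact this
  have hQ : (0 : ℤ) < (p : ℤ) ^ e := by exact_mod_cast expChar_pow_pos K p e
  have d3 : ∀ k l, (p : ℤ) ^ e * |α (k, l)| ≤ |m k| * |v k l.succ| + B ∧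
      |m k| * |v k l.succ| ≤ (p : ℤ) ^ e * |α (k, l)| + B := fun k l => by
    have e1 := c3 (k, l)
    have e2 := d2 (k, l)
    rw [← abs_mul, ← abs_of_pos hQ, ← abs_mul]
    exact ⟨by rw [eq_sub_of_add_eq e1.symm]; exact (abs_sub _ _).trans (by simpa using e2),
      by rw [e1]; exact (abs_add_le _ _).trans (by simpa using e2)⟩
  have d4 : 4 * (h + 1) * B < #S := by
    rcases B.eq_zero_or_pos with e | e
    · rw [e]; omega
    · omega
  have d5 : ∀ k, ∑ l ∈ univ.erase k, |α (k, l)| < |α (k, k)| := fun k => by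
    have e0 := Int.one_le_abs (b1 k)
    have e1 := sum_off k (f := fun l => 8 * ((p : ℤ) ^ e * |α (k, l)|))
      (B := |m k| * #S + 8 * h * B) (by positivity) fun l hl => by
        nlinarith [(d3 k l).1, a3 k l hl, Int.natCast_nonneg h]
    rw [← mul_sum, ← mul_sum] at e1
    zify at d4
    refine lt_of_mul_lt_mul_left ?_ hQ.le
    nlinarith [(d3 k k).2, a4 k, Int.natCast_nonneg #S]
  have d6 : ∀ k l, (p : ℤ) ^ e * |α (k, l)| ≤ (N * c' + 1) * #S := fun k l => by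
    have := mul_le_mul (b2 k) (a2 k l.succ) (abs_nonneg _) (Int.natCast_nonneg _)
    have e1 : B ≤ #S := by omega
    zify at e1
    linarith [(d3 k l).1]
  have k₀ : Fin h := ⟨0, by omega⟩
  have d7 : 1 ≤ |α (k₀, k₀)| := (sum_nonneg fun _ _ => abs_nonneg _).trans_lt (d5 k₀)
  replace c5 := c5.resolve_left fun e => by simp [e] at d7
  obtain ⟨n₀, A, e1, e2, e3, e4⟩ := adj (.of fun k l => α (k, l)) (x := (N * c' + 1) * t)
    (Nat.mul_pos (by omega) c1) (fun k l => le_of_mul_le_mul_left ((d6 k l).trans (by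
      zify at c5
      have : (0 : ℤ) ≤ N * c' + 1 := by positivity
      push_cast
      nlinarith)) hQ) d5
  rw [← hD] at e2 e3
  obtain ⟨a, n, f1, f2⟩ := split_p K p e1
  have f3 : D t ≤ D T := by
    rw [hD, hD]
    gcongr
  have f4 := expChar_pow_pos K p a
  have f5 : 0 < n := Nat.pos_of_ne_zero fun e => f1 (by simp [e])
  have f6 : n ≤ D t := (Nat.le_mul_of_pos_left _ f4).trans (f2 ▸ e2)
  have f7 : p ^ e ≤ (N * c' + 1) * #S := by
    zify
    nlinarith [d6 k₀ k₀]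
  let z : Fin h → Fin (h + 1) → ℤ := fun k => ∑ i, A k i • m i • v i
  have hz : ∀ k, z k ∈ Lat θ S := fun k =>
    sum_mem fun i _ => zsmul_mem (zsmul_mem (a1 i) _) _
  refine ⟨n, a + e, h * (h * D t) * B,
    Fin.cons 0 fun k => ((p : ℤ) ^ (a + e) * n) • dv k.succ 0 - z k, f1, (f6.trans f3).trans
      ((Nat.le_mul_of_pos_right _ (Nat.add_one_pos (N * c'))).trans (by omega)), ?_, ?_, ?_,
    rfl, fun k j => ?_, fun k => ?_⟩
  · rw [pow_add]
    refine (Nat.mul_le_mul (((Nat.le_mul_of_pos_right _ f5).trans (f2 ▸ e2)).trans f3) f7).trans ?_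
    rw [← mul_assoc]
    exact Nat.mul_le_mul_right _ (by omega)
  · refine lt_of_lt_of_le (lt_of_mul_lt_mul_left (a := t) (lt_of_le_of_lt ?_ c5) t.zero_le) ?_
    · omega
    · rw [pow_add]
      exact Nat.le_mul_of_pos_left _ f4
  · refine (Nat.mul_le_mul_right _ f6).trans_lt ?_
    rcases B.eq_zero_or_pos with e | e
    · rw [e, mul_zero, mul_zero, mul_zero]; omega
    · omega
  · refine Fin.cases (by simp; positivity) (fun k => ?_) k
    rw [Fin.cons_succ, Nat.cast_mul, Nat.cast_mul, mul_assoc]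
    refine abs_tail (by omega) (by simp [sum_sub_distrib, ← mul_sum, sum_dv, (hz k).1])
      (fun l => ?_) j
    have g1 := congrFun (congrFun e4 k) l
    have g2 : (((p : ℤ) ^ (a + e) * n) • dv k.succ 0 - z k) l.succ = -∑ i, A k i * μ (i, l) := by
      simp only [Matrix.mul_apply, Matrix.of_apply, Matrix.smul_apply, Matrix.one_apply, f2,
        smul_eq_mul] at g1
      simp only [z, Pi.sub_apply, Pi.smul_apply, Finset.sum_apply, smul_eq_mul, dv_apply,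
        Fin.succ_inj, if_neg l.succ_ne_zero, fun i => c3 (i, l), mul_add, sum_add_distrib,
        mul_left_comm _ ((p : ℤ) ^ e), ← mul_sum, g1, eq_comm (a := l)]
      push_cast
      ring
    rw [g2, abs_neg]
    refine (abs_sum_le_sum_abs _ _).trans ((sum_le_card_nsmul _ _ ((D t : ℤ) * B) fun i _ => ?_).trans
      (by simp [mul_assoc]))
    rw [abs_mul]
    exact mul_le_mul (e3 _ _) (d2 _) (abs_nonneg _) (Int.natCast_nonneg _)
  · refine Fin.cases (by simp [dv]) (fun k => ?_) k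
    rw [Fin.cons_succ, sub_sub_cancel]
    exact hz k

end Pool.Agent.Lib.MP_a8c702_nt.LT
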