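import Pool.Agent.Lib.MP_a8c702_nt.LT.Lat

/-! Elimination: the relation between the `n`-th powers of three numbers with sum zero. -/

namespace Pool.Agent.Lib.MP_a8c702_nt.LT

open Finset

variable {K : Type} [Field K]

open MvPolynomial in
theorem coeff_scale (a : Fin 3 → K) (P : MvPolynomial (Fin 3) K) (m : Fin 3 →₀ ℕ) :
    (aeval (fun i => a i • (X i : MvPolynomial (Fin 3) K)) P).coeff m =
      (∏ i, a i ^ m i) * P.coeff m := by
  induction P using MvPolynomial.induction_on' with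
  | monomial d c =>
    have : aeval (fun i => a i • (X i : MvPolynomial (Fin 3) K)) (monomial d c) =
        (∏ i, a i ^ d i) • monomial d c := by
      rw [aeval_monomial, monomial_eq, Finsupp.prod_fintype _ _ (by simp),
        Finsupp.prod_fintype _ _ (by simp)]
      simp only [smul_eq_C_mul, mul_pow, prod_mul_distrib, map_prod, map_pow, algebraMap_eq]
      ring
    rw [this, coeff_smul, coeff_monomial, smul_eq_mul]
    split_ifs with h
    · rw [h]
    · simp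
  | add P Q h1 h2 => rw [map_add, coeff_add, coeff_add, h1, h2, mul_add]

/-- The data of the eliminant. -/
def Phi {K : Type} [Field K] (n : ℕ) (Φ : MvPolynomial (Fin 3) K) (Z : Finset (K × K)) : Prop :=
  Φ.totalDegree ≤ n ∧ #Z ≤ n * n ∧ (1, 1) ∈ Z ∧ (∀ z ∈ Z, z.1 ≠ 0 ∧ z.2 ≠ 0) ∧
    ∀ (A : Type) [CommRing A] [Algebra K A] (y : Fin 3 → A),
      MvPolynomial.aeval (y ^ n) Φ = ∏ z ∈ Z, (y 0 + z.1 • y 1 + z.2 • y 2)

variable [IsAlgClosed K] {n : ℕ}

open MvPolynomial in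
theorem exists_phi (hn : (n : K) ≠ 0) : ∃ Φ : MvPolynomial (Fin 3) K, ∃ Z, Phi n Φ Z := by
  classical
  have : NeZero (n : K) := ⟨hn⟩
  have h0 : 0 < n := Nat.pos_of_ne_zero fun h => hn (by simp [h])
  obtain ⟨ζ, hζ⟩ := HasEnoughRootsOfUnity.exists_primitiveRoot K n
  let Z := Polynomial.nthRootsFinset n (1 : K) ×ˢ Polynomial.nthRootsFinset n (1 : K)
  have hZ : #Z = n * n := by rw [card_product, hζ.card_nthRootsFinset]
  have hm : ∀ z, z ∈ Z ↔ z.1 ^ n = 1 ∧ z.2 ^ n = 1 := fun z => by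
    simp [Z, Polynomial.mem_nthRootsFinset h0]
  have hz : ∀ x : K, x ^ n = 1 → x ≠ 0 := fun x h h' => by simp [h', h0.ne'] at h
  let Ψ : MvPolynomial (Fin 3) K := ∏ z ∈ Z, (X 0 + z.1 • X 1 + z.2 • X 2)
  have hΨ : ∀ (A : Type) [CommRing A] [Algebra K A] (y : Fin 3 → A),
      aeval y Ψ = ∏ z ∈ Z, (y 0 + z.1 • y 1 + z.2 • y 2) := fun A _ _ y => by simp [Ψ]
  have h1 : ∀ a : Fin 3 → K, (∀ i, a i ^ n = 1) →
      aeval (fun i => a i • (X i : MvPolynomial (Fin 3) K)) Ψ = Ψ := fun a ha => by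
    have a0 := hz _ (ha 0)
    have a1 := hz _ (ha 1)
    have a2 := hz _ (ha 2)
    have : ∏ z ∈ Z, a 0 • (X 0 + z.1 • X 1 + z.2 • X 2 : MvPolynomial (Fin 3) K) = Ψ := by
      simp only [smul_eq_C_mul (a := a 0)]
      rw [prod_mul_distrib, prod_const, hZ, ← map_pow, pow_mul, ha, one_pow, map_one, one_mul]
    rw [hΨ, ← this]
    refine prod_nbij' (fun z => (z.1 * a 1 / a 0, z.2 * a 2 / a 0))
      (fun z => (z.1 * a 0 / a 1, z.2 * a 0 / a 2)) (fun z h => ?_) (fun z h => ?_)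
      (fun z _ => ?_) (fun z _ => ?_) fun z _ => ?_
    · rw [hm] at h ⊢
      simp [div_pow, mul_pow, ha, h]
    · rw [hm] at h ⊢
      simp [div_pow, mul_pow, ha, h]
    · ext <;> field_simp
    · ext <;> field_simp
    · simp only [smul_add, smul_smul, mul_div_cancel₀ _ a0]
  have h2 : ∀ m ∈ Ψ.support, ∀ i, n ∣ m i := fun m hm i => by
    have := coeff_scale (Function.update 1 i ζ) Ψ m
    rw [h1 _ fun j => by
      rw [Function.update_apply]
      split_ifs <;> simp [hζ.pow_eq_one], prod_eq_single i (fun b _ hb => by simp [hb]) (by simp),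
      Function.update_self] at this
    exact (hζ.pow_eq_one_iff_dvd _).1 (mul_right_cancel₀ (mem_support_iff.1 hm)
      (this.symm.trans (one_mul _).symm))
  obtain ⟨Φ, hΦ⟩ : ∃ Φ, expand n Φ = Ψ := by
    refine ⟨∑ m ∈ Ψ.support, monomial (m.mapRange (· / n) (by simp)) (Ψ.coeff m), ?_⟩
    conv_rhs => rw [Ψ.as_sum]
    rw [map_sum]
    refine sum_congr rfl fun m hm => ?_
    rw [expand_monomial]
    congr 2
    ext i
    simpa using Nat.mul_div_cancel' (h2 m hm i)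
  refine ⟨Φ, Z, Nat.le_of_mul_le_mul_right ?_ h0, hZ.le, by simp [hm],
    fun z h => ⟨hz _ ((hm z).1 h).1, hz _ ((hm z).1 h).2⟩, fun A _ _ y => by
      rw [← aeval_expand, hΦ, hΨ]⟩
  rw [← totalDegree_expand, hΦ, ← hZ]
  refine (totalDegree_finsetProd _ _).trans ((sum_le_card_nsmul _ _ 1 fun z _ => ?_).trans (by simp))
  exact (totalDegree_add _ _).trans (max_le ((totalDegree_add _ _).trans (max_le
    (totalDegree_X _).le ((totalDegree_smul_le _ _).trans (totalDegree_X _).le)))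
    ((totalDegree_smul_le _ _).trans (totalDegree_X _).le))

open Polynomial

omit [IsAlgClosed K] in
theorem ev_aeval {A : Type} [CommRing A] [Algebra K A] (V : Fin 3 → K[X])
    {Φ : MvPolynomial (Fin 3) K} (h : MvPolynomial.aeval V Φ = 0) (x : A) :
    MvPolynomial.aeval (fun i => aeval x (V i)) Φ = 0 := by
  rw [← MvPolynomial.comp_aeval_apply, h, map_zero]

theorem Phi.zero {Φ : MvPolynomial (Fin 3) K} {Z : Finset (K × K)} (h : Phi n Φ Z) (hn : 0 < n)
    {V : Fin 3 → K[X]} {d : ℕ} (hd : ∀ i, (V i).natDegree ≤ d) {S : Finset K} (hS : n * d < #S)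
    (hy : ∀ x ∈ S, ∃ (y : Fin 3 → K) (c : K), y 0 + y 1 + y 2 = 0 ∧
      ∀ i, (V i).eval x = y i ^ n * c) : MvPolynomial.aeval V Φ = 0 := by
  refine eq_zero_of_natDegree_lt_card_of_eval_eq_zero' _ S (fun x hx => ?_)
    ((MvPolynomial.aeval_natDegree_le _ h.1 _ hd).trans_lt hS)
  obtain ⟨y, c, h1, h2⟩ := hy x hx
  obtain ⟨c, rfl⟩ := IsAlgClosed.exists_pow_nat_eq c hn
  rw [← coe_aeval_eq_eval, MvPolynomial.comp_aeval_apply,
    show (fun i => aeval x (V i)) = (fun i => y i * c) ^ n from funext fun i => by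
      rw [coe_aeval_eq_eval, h2, Pi.pow_apply, mul_pow], h.2.2.2.2]
  exact prod_eq_zero h.2.2.1 (by simp only [one_smul]; linear_combination c * h1)

theorem trop {J : Type} [Fintype J] {θ : J → K} {S : Finset K} (hn : (n : K) ≠ 0) (hg : Gen θ S)
    {ν : Fin 3 → J → ℤ} {a : Fin 3 → K} (ha : ∀ i, a i ≠ 0) {B : ℕ} (h0 : ∀ i, ∑ j, ν i j = 0)
    (hB : ∀ i j, |ν i j| ≤ B) (h2 : ν 2 = 0) (hs : n * (Fintype.card J * B) < #S)
    (hy : ∀ x ∈ S, ∃ y : Fin 3 → K, y 0 + y 1 + y 2 = 0 ∧ ∀ i, y i ^ n = a i * ch θ x (ν i))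
    (j : J) (i₀ : Fin 3) : ∃ i, i ≠ i₀ ∧ ν i j ≤ ν i₀ j := by
  classical
  by_contra! hc
  have hn0 : 0 < n := Nat.pos_of_ne_zero fun h => hn (by simp [h])
  obtain ⟨Φ, Z, h⟩ := exists_phi hn
  have h3 : ν i₀ j ≤ 0 := by
    by_cases h' : 2 = i₀
    · simp [← h', h2]
    · simpa [h2] using (hc 2 h').le
  let b : J → ℕ := Function.update (fun _ => B) j (-ν i₀ j).toNat
  have b1 : (b j : ℤ) = -ν i₀ j := by simpa [b] using h3
  have b2 : ∀ i k, -(b k : ℤ) ≤ ν i k := fun i k => by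
    by_cases hk : k = j
    · rw [hk, b1, neg_neg]
      exact (eq_or_ne i i₀).elim (fun e => e ▸ le_rfl) fun e => (hc i e).le
    · simpa [b, hk] using (abs_le.1 (hB i k)).1
  have b3 : ∑ k, b k ≤ Fintype.card J * B := sum_le_card_nsmul _ _ B fun k _ => by
    by_cases hk : k = j
    · have := (abs_le.1 (hB i₀ j)).1
      rw [hk]
      omega
    · simp [b, hk]
  have h4 := ev_aeval _ (h.zero hn0 (V := fun i => C (a i) * mo univ θ fun k => (b k + ν i k).toNat)
    (fun i => (natDegree_C_mul_le _ _).trans (by rwa [natDegree_mo, sum_shift (h0 i) (b2 i)])) hs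
    fun x hx => (hy x hx).imp fun y h' => ⟨∏ k, (x - θ k) ^ b k, h'.1, fun i => by
      rw [eval_C_mul, eval_mo, shift (hg.2 x hx) (b2 i), h'.2, mul_assoc]⟩) (θ j)
  obtain ⟨y, hy⟩ := IsAlgClosed.exists_pow_nat_eq
    ((C (a i₀) * mo univ θ fun k => (b k + ν i₀ k).toNat).eval (θ j)) hn0
  have h5 : y ≠ 0 := fun h' => by
    rw [h', zero_pow hn0.ne'] at hy
    have := (rootMultiplicity_pos (mul_ne_zero (C_ne_zero.2 (ha i₀)) (mo_monic _ _ _).ne_zero)).2
      hy.symm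
    rw [rm_mo hg.1.injOn _ (ha i₀) (mem_univ j)] at this
    omega
  rw [show (fun i => aeval (θ j) (C (a i) * mo univ θ fun k => (b k + ν i k).toNat)) =
    (Pi.single i₀ y : Fin 3 → K) ^ n from funext fun i => by
      rw [coe_aeval_eq_eval, Pi.pow_apply]
      by_cases hi : i = i₀
      · rw [hi, Pi.single_eq_same, hy]
      · rw [Pi.single_eq_of_ne hi, zero_pow hn0.ne']
        refine (rootMultiplicity_pos' (p := C (a i) * _)).1 ?_ |>.2
        have := hc i hi
        rw [rm_mo hg.1.injOn _ (ha i) (mem_univ j)]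
        omega, h.2.2.2.2] at h4
  obtain ⟨z, h6, h7⟩ := prod_eq_zero_iff.1 h4
  have := h.2.2.2.1 z h6
  fin_cases i₀ <;> simp_all

omit [IsAlgClosed K] in
theorem eps_pow (u : K) (m : ℕ) :
    (1 + u • DualNumber.eps : DualNumber K) ^ m = 1 + (m * u) • DualNumber.eps := by
  induction m with
  | zero => simp
  | succ m ih =>
    rw [pow_succ, ih, mul_add, add_mul, add_mul, smul_mul_smul_comm, DualNumber.eps_mul_eps]
    simp [add_mul, add_smul, add_assoc]

theorem dual {t : ℕ} (hn : (n : K) ≠ 0) (ht : (t : K) ≠ 0) {S : Finset K} (hs : n * t < #S)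
    {θ a : Fin 3 → K} {y : K → Fin 3 → K} {c : K → K} (h0 : ∀ x ∈ S, ∀ i, x ≠ θ i)
    (h1 : ∀ x ∈ S, y x 0 + y x 1 + y x 2 = 0) (h2 : ∀ x ∈ S, c x ≠ 0)
    (h3 : ∀ x ∈ S, ∀ i, a i * (x - θ i) ^ t = y x i ^ n * c x) :
    ∃ T : Finset K, #T ≤ n * n ∧ ∀ x ∈ S, y x 2 ≠ 0 → y x 1 / y x 2 ∉ T →
      y x 0 / (x - θ 0) + y x 1 / (x - θ 1) + y x 2 / (x - θ 2) = 0 := by
  classical
  have hn0 : 0 < n := Nat.pos_of_ne_zero fun h => hn (by simp [h])
  obtain ⟨Φ, Z, h⟩ := exists_phi hn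
  have h4 := ev_aeval (A := DualNumber K) _ (h.zero hn0 (V := fun i => C (a i) * (X - C (θ i)) ^ t)
    (fun i => (natDegree_C_mul_le _ _).trans (by simp [natDegree_pow])) hs
    fun x hx => ⟨y x, c x, h1 x hx, fun i => by simpa using h3 x hx i⟩)
  refine ⟨Z.image fun z => (1 - z.2) / (z.1 - 1), card_image_le.trans h.2.1, fun x hx a1 a2 => ?_⟩
  obtain ⟨e, he⟩ := IsAlgClosed.exists_pow_nat_eq (c x) hn0
  have a3 : e ≠ 0 := fun h' => h2 x hx (by rw [← he, h', zero_pow hn0.ne'])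
  have a4 := h4 (algebraMap K _ x + DualNumber.eps)
  rw [show (fun i => aeval (algebraMap K (DualNumber K) x + DualNumber.eps)
    (C (a i) * (X - C (θ i)) ^ t)) = (fun i => (y x i * e) •
      (1 + (t / (n * (x - θ i))) • DualNumber.eps : DualNumber K)) ^ n from funext fun i => by
      have a5 := sub_ne_zero.2 (h0 x hx i)
      have a6 : algebraMap K (DualNumber K) x + DualNumber.eps - algebraMap K _ (θ i) =
          (x - θ i) • (1 + (x - θ i)⁻¹ • DualNumber.eps) := by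
        rw [smul_add, smul_smul, mul_inv_cancel₀ a5, one_smul, ← Algebra.algebraMap_eq_smul_one,
          map_sub]
        ring
      rw [Pi.pow_apply, _root_.smul_pow, eps_pow, mul_pow, he, ← h3 x hx, map_mul, map_pow, map_sub,
        aeval_C, aeval_C, aeval_X, a6, _root_.smul_pow, eps_pow, ← Algebra.smul_def, smul_smul]
      congr 3
      field_simp, h.2.2.2.2, ← mul_prod_erase _ _ h.2.2.1, IsUnit.mul_left_eq_zero] at a4
  · have := congrArg TrivSqZeroExt.snd a4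
    simp only [one_smul, TrivSqZeroExt.snd_add, TrivSqZeroExt.snd_smul, TrivSqZeroExt.snd_one,
      DualNumber.snd_eps, smul_eq_mul, TrivSqZeroExt.snd_zero, mul_one, zero_add] at this
    refine mul_left_cancel₀ (mul_ne_zero a3 (div_ne_zero ht hn)) ?_
    rw [mul_zero, ← this]
    simp only [div_eq_mul_inv, mul_inv]
    ring
  · refine IsUnit.prod_iff.2 fun z hz => TrivSqZeroExt.isUnit_iff_isUnit_fst.2 (Ne.isUnit fun a5 => ?_)
    simp only [TrivSqZeroExt.fst_add, TrivSqZeroExt.fst_smul, TrivSqZeroExt.fst_one,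
      DualNumber.fst_eps, smul_eq_mul, mul_zero, add_zero, mul_one] at a5
    have a6 : y x 1 * (z.1 - 1) = (1 - z.2) * y x 2 :=
      mul_left_cancel₀ a3 (by linear_combination a5 - e * h1 x hx)
    have a7 : z.1 - 1 ≠ 0 := fun a7 => by
      rw [a7, mul_zero, eq_comm, mul_eq_zero, or_iff_left a1] at a6
      exact (mem_erase.1 hz).1 (Prod.ext (sub_eq_zero.1 a7) (sub_eq_zero.1 a6).symm)
    exact a2 (mem_image.2 ⟨z, mem_of_mem_erase hz, ((div_eq_div_iff a1 a7).2 a6).symm⟩)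

end Pool.Agent.Lib.MP_a8c702_nt.LT
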