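import Pool.Agent.Lib.MP_a8c702_nt.LT.Frob

/-! The index of the Frobenius lattice. -/

namespace Pool.Agent.Lib.MP_a8c702_nt.LT

open Finset

variable {K : Type} [Field K] {h : ℕ} {θ : Fin (h + 1) → K} {S : Finset K}
  {σ : Equiv.Perm (Fin (h + 1))} {Q : ℤ}

theorem lf_mem (hf : ∀ k, Q • dv k 0 - dv (σ k) (σ 0) ∈ Lat θ S) {β : Fin (h + 1) → ℤ}
    (h0 : ∑ j, β j = 0) : (fun j => Q * β j - β (σ.symm j)) ∈ Lat θ S := by
  convert sum_mem fun k (_ : k ∈ univ) => zsmul_mem (hf k) (β k) using 1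
  funext j
  simp [dv_apply, mul_sub, sum_sub_distrib, ← Equiv.symm_apply_eq, ← sum_mul, h0, mul_comm Q,
    ← mul_assoc]

theorem box_inj (hh : 1 ≤ h) {β : Fin (h + 1) → ℤ} (h0 : ∑ j, β j = 0)
    (h1 : ∀ l : Fin h, |Q * β l.succ - β (σ.symm l.succ)| < Q - h) : β = 0 := by
  obtain ⟨l, -, hl⟩ := exists_max_image univ (fun l : Fin h => |β l.succ|) ⟨⟨0, hh⟩, mem_univ _⟩
  have a1 := abs_tail hh h0 fun l => hl l (mem_univ _)
  have a2 := (abs_sub_abs_le_abs_sub _ _).trans_lt (h1 l)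
  have a3 := (abs_nonneg _).trans_lt (h1 l)
  rw [abs_mul, abs_of_nonneg (a := Q) (by omega)] at a2
  have a4 : |β l.succ| < 1 := lt_of_mul_lt_mul_left (by linarith [a1 (σ.symm l.succ)]) a3.le
  funext j
  have := a1 j
  rw [show |β l.succ| = 0 by have := abs_nonneg (β l.succ); omega, mul_zero] at this
  exact abs_nonpos_iff.1 this

theorem step8 (h r c : ℕ) : ∃ s₀ : ℕ, ∀ (K : Type) [Field K] (p e : ℕ) (θ : Fin (h + 1) → K)
    (S : Finset K) (σ : Equiv.Perm (Fin (h + 1))), 0 < p → Gen θ S → s₀ < #S →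
    (∀ k, (p : ℤ) ^ e • dv k 0 - dv (σ k) (σ 0) ∈ Lat θ S) → p ^ e ≤ c * #S → #S ≤ 2 * p ^ e →
    ∀ μ ∈ Lat θ S, (∀ j, |μ j| ≤ c * #S) → (∀ j, Str p r (μ j)) →
    ∃ β : Fin (h + 1) → ℤ, ∑ j, β j = 0 ∧ ∀ j, μ j = (p : ℤ) ^ e * β j - β (σ.symm j) := by
  obtain ⟨T, h1⟩ := gap (Fin (h + 1)) r fun t => (h + 1) * (2 * (t * c + 1) + t)
  refine ⟨2 * ((h + 1) * (2 * (c + 1) * ((c + 1) * T))), fun K _ p e θ S σ hp hg hs hf a1 a2 μ
    a3 a4 a5 => ?_⟩
  obtain ⟨t, e₁, α, ν, b1, b2, b3, b4, b5⟩ := h1 p #S μ a5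
  obtain ⟨B, hB⟩ : ∃ B, B = #S / ((h + 1) * (2 * (t * c + 1) + t)) := ⟨_, rfl⟩
  have d1 : 2 * ((h + 1) * ((t * c + 1) * B)) + t * ((h + 1) * B) ≤ #S :=
    (le_of_eq (by rw [← hB]; ring)).trans (Nat.mul_div_le _ ((h + 1) * (2 * (t * c + 1) + t)))
  have d2 : ∀ k, |ν k| ≤ B := fun k => by
    have := b4 k
    rw [Int.abs_eq_natAbs] at this ⊢
    norm_cast at this ⊢
    rw [hB, Nat.le_div_iff_mul_le (by positivity), mul_comm]
    exact this
  have d3 : (h + 1) * B ≤ (h + 1) * ((t * c + 1) * B) :=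
    Nat.mul_le_mul_left _ (Nat.le_mul_of_pos_left _ (Nat.add_one_pos _))
  by_cases h0 : α = 0
  · refine ⟨0, by simp, fun j => ?_⟩
    rw [hg.small a3 (B := B) (fun j => by simpa [b3, h0] using d2 j) (by
      rw [Fintype.card_fin]; norm_cast; omega)]
    simp
  replace b5 := b5.resolve_left h0
  have hQ : (0 : ℤ) < (p : ℤ) ^ e₁ := by positivity
  have d4 : ∀ j, (p : ℤ) ^ e₁ * |α j| ≤ (c + 1) * #S := fun j => by
    have : B ≤ #S := (Nat.le_mul_of_pos_left _ h.add_one_pos).trans (by omega)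
    rw [← abs_of_pos hQ, ← abs_mul, ← eq_sub_of_add_eq (b3 j).symm |>.symm]
    zify at this
    linarith [abs_sub (μ j) (ν j), a4 j, d2 j]
  have d5 : ∀ j, |α j| ≤ (c + 1) * t := fun j => le_of_mul_le_mul_left ((d4 j).trans (by
    zify at b5
    have : (0 : ℤ) ≤ c + 1 := by positivity
    nlinarith)) hQ
  have d6 : ∑ j, α j = 0 := by
    have e1 := a3.1
    simp only [b3, sum_add_distrib, ← mul_sum] at e1
    have e2 := (abs_sum_le_sum_abs ν univ).trans (sum_le_card_nsmul _ _ _ fun j _ => d2 j)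
    rw [eq_neg_of_add_eq_zero_right e1, abs_neg, abs_mul, abs_of_pos hQ] at e2
    have e3 : (h + 1) * B < p ^ e₁ := lt_of_mul_lt_mul_left (a := t) (by omega) t.zero_le
    simp only [card_univ, Fintype.card_fin, nsmul_eq_mul] at e2
    zify at e3
    push_cast at e2
    exact Int.abs_lt_one_iff.1 (lt_of_mul_lt_mul_left (by linarith) hQ.le)
  obtain ⟨π, π', ρ, e1, e2, e3, e4, e5⟩ : ∃ π π' ρ : ℕ, π * p ^ e₁ = π' * p ^ e ∧ p ^ e = π * ρ ∧
      π ≤ t * c + 1 ∧ π' ≤ 2 * (c + 1) ∧ 0 < π := by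
    rcases le_total e₁ e with h' | h'
    · obtain ⟨d, rfl⟩ := Nat.exists_eq_add_of_le h'
      refine ⟨p ^ d, 1, p ^ e₁, by ring, by ring, le_of_mul_le_mul_right (a := #S) ?_ (by omega),
        by omega, by positivity⟩
      rw [pow_add] at a1
      nlinarith [Nat.mul_le_mul_left (p ^ d) b5.le, Nat.mul_le_mul_left t a1]
    · obtain ⟨d, rfl⟩ := Nat.exists_eq_add_of_le h'
      refine ⟨1, p ^ d, p ^ e, by ring, by ring, by omega,
        le_of_mul_le_mul_right (a := #S) ?_ (by omega), one_pos⟩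
      obtain ⟨j, hj⟩ := Function.ne_iff.1 h0
      have := (le_mul_of_one_le_right hQ.le (Int.one_le_abs hj)).trans (d4 j)
      norm_cast at this
      rw [pow_add] at this
      nlinarith [Nat.mul_le_mul_left (p ^ d) a2]
  zify at e1 e2 e3 e4 e5
  have f1 := congrFun (hg.small (sub_mem (zsmul_mem a3 π) (lf_mem hf (β := fun j => π' * α j)
    (by rw [← mul_sum, d6, mul_zero]))) (B := (t * c + 1) * B + 2 * (c + 1) * ((c + 1) * T))
    (fun j => by
      rw [show ((π : ℤ) • μ - fun j => (p : ℤ) ^ e * (π' * α j) - π' * α (σ.symm j)) j =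
        π * ν j + π' * α (σ.symm j) by
          simp only [Pi.sub_apply, Pi.smul_apply, smul_eq_mul, b3]
          linear_combination α j * e1]
      refine (abs_add_le _ _).trans (add_le_add ?_ ?_) <;> rw [abs_mul, Nat.abs_cast]
      · exact mul_le_mul e3 (d2 j) (abs_nonneg _) (by positivity)
      · exact mul_le_mul e4 ((d5 _).trans (by gcongr)) (abs_nonneg _) (by positivity))
    (by rw [Fintype.card_fin, mul_add]; norm_cast; omega))
  simp only [Pi.sub_apply, Pi.smul_apply, smul_eq_mul, Pi.zero_apply] at f1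
  have f2 : ∀ i, (π : ℤ) * (ρ * (π' * α (σ i)) - μ (σ i)) = π' * α i := fun i => by
    have := f1 (σ i)
    rw [σ.symm_apply_apply, e2] at this
    linear_combination -this
  refine ⟨fun i => ρ * (π' * α (σ i)) - μ (σ i), mul_left_cancel₀ e5.ne' ?_, fun j =>
    mul_left_cancel₀ e5.ne' ?_⟩
  · rw [mul_sum, sum_congr rfl fun i _ => f2 i, ← mul_sum, d6, mul_zero, mul_zero]
  · linear_combination f1 j - (p : ℤ) ^ e * f2 j + f2 (σ.symm j)

theorem sum_ex (β : Fin h → ℤ) : ∑ j, ex β j = 0 := by simp [ex, Fin.sum_univ_succ]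

theorem main (h D : ℕ) (hh : 2 ≤ h) (hD : 0 < D) : ∃ C : ℕ, ∀ (K : Type) [Field K] [IsAlgClosed K]
    (p : ℕ) [ExpChar K p] (θ : Fin (h + 1) → K) (S : Finset K) (Γ : Type) [Fintype Γ]
    (χ : (Fin h → ℤ) → Γ), Gen θ S → C < #S → (∀ β β', χ β = χ β' → ex (β - β') ∈ Lat θ S) →
    Fintype.card Γ < (D * (#S + 1)) ^ h →
    ∃ (e I : ℕ) (σ : Equiv.Perm (Fin (h + 1))), ∃ S₀ ⊆ S, #S ≤ #S₀ + C ∧ #S₀ ≤ p ^ e + 1 ∧
      1 < p ^ e ∧ p ^ e ≤ C * #S ∧ (∀ k, (p : ℤ) ^ e • dv k 0 - dv (σ k) (σ 0) ∈ Lat θ S₀) ∧ 0 < I ∧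
      (p ^ e - h) ^ h ≤ I * Fintype.card Γ ∧ I * (D * (#S + 1)) ≤ (D + 1) * (p ^ e - h) := by
  obtain ⟨C, h1⟩ := frob h (D * 2) hh (by omega)
  obtain ⟨J, hJ⟩ : ∃ J, J = D * ((h + 1) * h + 1) + 1 := ⟨_, rfl⟩
  obtain ⟨r, h2⟩ := link (h + 1) ((2 * C + 1) * J)
  obtain ⟨E, hE⟩ : ∃ E, E = (h + 1) * ((2 * C + 1) * J) * ((2 * C + 1) * J) := ⟨_, rfl⟩
  rw [← hE] at h2
  obtain ⟨s₀, h3⟩ := step8 h r ((2 * h + 2 * J) * (2 * C))
  obtain ⟨W, hW⟩ : ∃ W, W = D * J + D * E + D + J * ((D + 1) * h) + J * ((2 * C + 1) * D * (C + 1)) :=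
    ⟨_, rfl⟩
  refine ⟨2 * C + s₀ + W + E + h + 2, fun K _ _ p _ θ S Γ _ χ hg hs hχ hΓ => ?_⟩
  classical
  obtain ⟨e, σ, S₀, a1, a2, a3, a4, a5⟩ := h1 K p θ S Γ χ hg (by omega) hχ
    (hΓ.trans_le (by rw [mul_assoc]; gcongr; omega))
  have hg' := hg.mono a1
  replace h3 := h3 K p e θ S₀ σ (expChar_pos K p) hg' (by omega) a5
  replace h2 := h2 K p θ S₀
  suffices #S₀ ≤ p ^ e + 1 ∧ ∃ I, 0 < I ∧ (p ^ e - h) ^ h ≤ I * Fintype.card Γ ∧
      I * (D * (#S + 1)) ≤ (D + 1) * (p ^ e - h) from this.2.elim fun I hI => ⟨e, I, σ, S₀, a1,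
    by omega, this.1, a4, a3.trans (Nat.mul_le_mul_right _ (by omega)), a5, hI⟩
  rw [← Nat.cast_pow] at a5 h3
  generalize p ^ e = Q at *
  obtain ⟨k, hk⟩ : ∃ k : Fin (h + 1), k ≠ 0 := ⟨Fin.last h, by simp [Fin.ext_iff]; omega⟩
  obtain ⟨f, hf⟩ : ∃ f, f = (Q : ℤ) • dv k 0 - dv (σ k) (σ 0) := ⟨_, rfl⟩
  let b : Fin (h + 1) → ℕ := fun j => (if j = 0 then Q else 0) + if j = σ k then 1 else 0
  have b0 : ∑ j, b j = Q + 1 := by simp [b, sum_add_distrib]
  have b1 : ∀ j, -(b j : ℤ) ≤ f j ∧ |f j| ≤ Q + 1 := fun j => by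
    simp only [hf, b, Pi.sub_apply, Pi.smul_apply, dv_apply, abs_le, smul_eq_mul]
    split_ifs <;> omega
  have b2 : (Q : ℤ) - 1 ≤ f k := by
    simp only [hf, Pi.sub_apply, Pi.smul_apply, dv_apply, smul_eq_mul, if_neg hk]
    split_ifs <;> omega
  have b3 := hg'.min (hf ▸ a5 k) (fun e => by rw [e, Pi.zero_apply] at b2; omega) fun j => (b1 j).1
  rw [b0] at b3
  have b4 : Q ≤ 2 * C * #S₀ := a3.trans (by
    rw [mul_comm 2, mul_assoc]
    exact Nat.mul_le_mul_left _ (by omega))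
  refine ⟨b3, ?_⟩
  obtain ⟨R, hR⟩ : ∃ R, Q = R + h := ⟨Q - h, by omega⟩
  rw [show Q - h = R by omega]
  let φ : (Fin h → Fin R) → Fin h → ℤ := fun x l => (x l : ℕ)
  have c1 : ∀ x y l, |φ x l - φ y l| < R := fun x y l => by
    have := (x l).2
    have := (y l).2
    simp only [φ, abs_lt]
    omega
  have key : ∀ (F : Finset (Fin h → Fin R)) (γ : Γ), #F ≤ 2 * C + 1 → (∀ x ∈ F, χ (φ x) = γ) →
      #F * (D * (#S + 1)) ≤ (D + 1) * R := fun F γ c2 c3 => by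
    by_contra! c4
    obtain ⟨x₀, c5⟩ := card_pos.1 (Nat.pos_of_ne_zero fun e => by simp [e] at c4 : 0 < #F)
    have c6 : ∀ x j, |ex (φ x - φ x₀) j| ≤ h * Q := fun x =>
      abs_tail (by omega) (sum_ex _) fun l => (c1 x x₀ l).le.trans (by omega)
    have c7 : ∀ u : F × Fin J, ex (φ u.1 - φ x₀) + ((u.2 : ℕ) : ℤ) • f ∈ Lat θ S₀ := fun u =>
      add_mem (lat_mono a1 (hχ _ _ ((c3 _ u.1.2).trans (c3 _ c5).symm))) (zsmul_mem (hf ▸ a5 k) _)
    obtain ⟨u, v, d1, d2, d3⟩ := h2 (F × Fin J) _ (fun j => J * b j + h * Q) k hg'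
      (by simpa using Nat.mul_le_mul_right J c2) c7
      (fun u j => by
        have e1 := (abs_le.1 (c6 u.1 j)).1
        have e2 := mul_le_mul_of_nonneg_left (b1 j).1 (Int.natCast_nonneg u.2)
        have e3 := Nat.mul_le_mul_right (b j) u.2.2.le
        zify at e3
        simp only [Pi.add_apply, Pi.smul_apply, smul_eq_mul]
        push_cast
        linarith)
      (by
        rw [sum_add_distrib, ← mul_sum, b0, Nat.sub_one_mul, Nat.lt_sub_iff_add_lt]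
        simp only [sum_const, card_univ, Fintype.card_fin, Fintype.card_prod, Fintype.card_coe,
          smul_eq_mul]
        refine lt_of_mul_lt_mul_left (a := D) ?_ D.zero_le
        have e1 := Nat.mul_lt_mul_of_pos_left c4 (show 0 < J by omega)
        have e2 := Nat.mul_le_mul_left (J * (#F * D)) (Nat.succ_le_succ a2)
        have e3 := Nat.mul_le_mul_left (J * (D * (C + 1))) c2
        have e4 := Nat.mul_le_mul_left D b3
        have e5 : W ≤ Q := by omega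
        have e6 : J * Q = D * ((h + 1) * h + 1) * Q + Q := by rw [hJ]; ring
        have e7 : J * ((D + 1) * Q) = J * ((D + 1) * R) + J * ((D + 1) * h) := by rw [hR]; ring
        simp only [Nat.succ_eq_add_one] at e2
        linarith)
    have d4 : |((u.2 : ℕ) : ℤ) - (v.2 : ℕ)| ≤ J := by
      have := u.2.2
      have := v.2.2
      rw [abs_le]
      omega
    have d5 : ∀ j, (ex (φ u.1 - φ x₀) + ((u.2 : ℕ) : ℤ) • f) j -
        (ex (φ v.1 - φ x₀) + ((v.2 : ℕ) : ℤ) • f) j = ex (φ u.1 - φ x₀) j - ex (φ v.1 - φ x₀) j +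
          ((u.2 : ℕ) - (v.2 : ℕ)) * f j := fun j => by
      simp only [Pi.add_apply, Pi.smul_apply, smul_eq_mul]
      ring
    obtain ⟨β, d6, d7⟩ := h3 (b4.trans (Nat.mul_le_mul_right _ (Nat.le_mul_of_pos_left _
      (by omega)))) (by omega) _ (sub_mem (c7 u) (c7 v)) (fun j => by
        rw [Pi.sub_apply, d5]
        refine (abs_add_le _ _).trans ?_
        have e1 := mul_le_mul d4 (b1 j).2 (abs_nonneg _) (Int.natCast_nonneg _)
        have e2 := Nat.mul_le_mul_left (2 * h + 2 * J) b4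
        have e3 := Nat.mul_le_mul_left J a4.le
        zify at e2 e3
        rw [abs_mul]
        push_cast
        linarith [abs_sub (ex (φ u.1 - φ x₀) j) (ex (φ v.1 - φ x₀) j), c6 u.1 j, c6 v.1 j]) d3
    have d8 : ∀ l : Fin h, φ u.1 l - φ v.1 l =
        Q * (β - (((u.2 : ℕ) : ℤ) - (v.2 : ℕ)) • dv k 0) l.succ -
          (β - (((u.2 : ℕ) : ℤ) - (v.2 : ℕ)) • dv k 0) (σ.symm l.succ) := fun l => by
      have e1 := (d5 l.succ).symm.trans (d7 l.succ)
      simp only [hf, ex, Fin.cons_succ, Pi.sub_apply, Pi.smul_apply, smul_eq_mul, dv_apply,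
        Equiv.symm_apply_eq] at e1 ⊢
      linear_combination e1
    have d9 := box_inj (by omega) (by simp [sum_sub_distrib, ← mul_sum, sum_dv, d6]) fun l =>
      ((congrArg abs (d8 l)).symm.trans_lt (c1 _ _ l)).trans_le (by omega)
    have e1 : u.1 = v.1 := Subtype.ext (funext fun l => Fin.ext (by
      have := d8 l
      simp only [d9, Pi.zero_apply, φ] at this
      omega))
    have e2 : ((u.2 : ℕ) : ℤ) - (v.2 : ℕ) ≠ 0 := fun e => d1 (Prod.ext e1 (Fin.ext (by omega)))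
    rw [d5, e1, sub_self, zero_add, abs_mul] at d2
    have e3 := (le_mul_of_one_le_left (abs_nonneg _) (Int.one_le_abs e2)).trans d2
    have e4 := le_abs_self (f k)
    omega
  obtain ⟨γ, -, hγ⟩ := exists_max_image univ (fun γ => #{x | χ (φ x) = γ}) ⟨χ 0, mem_univ _⟩
  have c2 := card_le_mul_card_image_of_maps_to (f := fun x => χ (φ x)) (s := univ) (t := univ)
    (fun _ _ => mem_univ _) _ hγ
  rw [card_univ, card_univ, Fintype.card_fun, Fintype.card_fin, Fintype.card_fin] at c2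
  by_cases c3 : #{x | χ (φ x) = γ} ≤ 2 * C + 1
  · refine ⟨_, Nat.pos_of_ne_zero fun e => ?_, c2, key _ γ c3 fun x hx => (mem_filter.1 hx).2⟩
    rw [e, zero_mul] at c2
    exact absurd c2 (not_le.2 (Nat.pow_pos (by omega)))
  · obtain ⟨F, c4, c5⟩ := exists_subset_card_eq (not_le.1 c3).le
    have c6 := key F γ c5.le fun x hx => (mem_filter.1 (c4 hx)).2
    rw [c5] at c6
    have c7 := Nat.mul_le_mul (show D + 1 ≤ 2 * D by omega) (show R ≤ C * #S by omega)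
    nlinarith [Nat.zero_le (D * #S), Nat.zero_le (C * D)]

end Pool.Agent.Lib.MP_a8c702_nt.LT
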