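import Pool.Agent.Lib.MP_a8c702_nt.LT.Diag

/-! The Frobenius relations on most of the points. -/

namespace Pool.Agent.Lib.MP_a8c702_nt.LT

open Finset

variable {K : Type} [Field K] {h : ℕ} {θ : Fin (h + 1) → K} {S : Finset K}

theorem cols (hh : 1 ≤ h) {ν : Fin (h + 1) → Fin (h + 1) → ℤ} (h0 : ν 0 = 0)
    (h1 : ∀ k, ∑ j, ν k j = 0) (h2 : ∀ k ≠ 0, ν k ≠ 0)
    (h3 : ∀ k ≠ 0, ∀ l ≠ 0, k ≠ l → ∀ j, (ν l j ≤ ν k j ∨ 0 ≤ ν k j) ∧ (ν k j ≤ 0 ∨ ν l j ≤ 0)) :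
    ∃ (t : ℕ) (σ : Equiv.Perm (Fin (h + 1))), t ≠ 0 ∧ ∀ k, ν k = (t : ℤ) • dv (σ k) (σ 0) := by
  have h4 : ∀ j, ν 0 j = 0 := congrFun h0
  have : ∀ j, ∃ (τ : Fin (h + 1)) (t : ℕ), ∀ k,
      ν k j = (if k = τ then (t : ℤ) else 0) - if 0 = τ then (t : ℤ) else 0 := fun j => by
    by_cases a1 : ∃ k, ν k j < 0
    · obtain ⟨k, a1⟩ := a1
      have a2 : k ≠ 0 := fun e => by simp [e, h4] at a1
      refine ⟨0, (-ν k j).toNat, fun l => ?_⟩
      by_cases a3 : l = 0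
      · simp [a3, h4]
      rw [if_neg a3, if_pos rfl]
      by_cases a4 : k = l
      · rw [← a4]; omega
      · have := (h3 k a2 l a3 a4 j).1
        have := (h3 l a3 k a2 (Ne.symm a4) j).1
        omega
    push Not at a1
    by_cases a2 : ∃ k, 0 < ν k j
    · obtain ⟨k, a2⟩ := a2
      have a3 : k ≠ 0 := fun e => by simp [e, h4] at a2
      refine ⟨k, (ν k j).toNat, fun l => ?_⟩
      rw [if_neg a3.symm]
      split_ifs with a4
      · rw [a4]; omega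
      by_cases a5 : l = 0
      · simp [a5, h4]
      · have := (h3 k a3 l a5 (Ne.symm a4) j).2
        have := a1 l
        omega
    · push Not at a2
      exact ⟨0, 0, fun k => by simpa using (a2 k).antisymm (a1 k)⟩
  choose τ t ht using this
  have a1 : ∀ k, ∑ j, (if k = τ j then t j else 0) = ∑ j, if 0 = τ j then t j else 0 := fun k => by
    have := h1 k
    simp only [ht, sum_sub_distrib, sub_eq_zero] at this
    exact_mod_cast this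
  have a2 : ∑ j, (if 0 = τ j then t j else 0) ≠ 0 := fun e => h2 ⟨1, by omega⟩ (by simp)
    (funext fun j => by
      have := sum_eq_zero_iff.1 ((a1 (τ j)).trans e) j (mem_univ _)
      rw [if_pos rfl] at this
      simp [ht, this])
  have a3 : τ.Surjective := fun k => by
    obtain ⟨j, -, hj⟩ := exists_ne_zero_of_sum_ne_zero ((a1 k).trans_ne a2)
    exact ⟨j, by_contra fun e => hj (if_neg (Ne.symm e))⟩
  have a4 := Finite.injective_iff_surjective.2 a3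
  refine ⟨_, (Equiv.ofBijective τ ⟨a4, a3⟩).symm, a2, fun k => funext fun j => ?_⟩
  rw [← a1 (τ j), sum_eq_single j (fun b _ hb => if_neg fun e => hb (a4 e).symm) (by simp), ht]
  simp only [Pi.smul_apply, dv_apply, Equiv.eq_symm_apply, smul_eq_mul, if_true, mul_sub, mul_ite,
    mul_one, mul_zero, eq_comm (b := τ j)]
  rfl

theorem ch_dv {x : K} (hx : ∀ j, x ≠ θ j) (k l : Fin (h + 1)) :
    ch θ x (dv k l) = (x - θ k) / (x - θ l) := by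
  rw [dv, sub_eq_add_neg, ch_add hx, ch_neg, ch_single, ch_single, div_eq_mul_inv]

theorem ch_ne {x : K} (hx : ∀ j, x ≠ θ j) (l : Fin (h + 1) → ℤ) : ch θ x l ≠ 0 :=
  prod_ne_zero_iff.2 fun j _ => zpow_ne_zero _ (sub_ne_zero.2 (hx j))

theorem lat_pow {Q n : ℕ} {k : Fin (h + 1)} {ν : Fin (h + 1) → ℤ} (hg : Gen θ S)
    (hl : ((Q : ℤ) * n) • dv k 0 - ν ∈ Lat θ S) :
    ∃ c ≠ 0, ∀ x ∈ S, (((x - θ k) / (x - θ 0)) ^ Q) ^ n = c * ch θ x ν := by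
  obtain ⟨-, c, h1, h2⟩ := hl
  refine ⟨c, h1, fun x hx => ?_⟩
  rw [← h2 x hx (hg.2 x hx), ← ch_add (hg.2 x hx), sub_add_cancel, ch_zsmul, ch_dv (hg.2 x hx),
    ← pow_mul, ← zpow_natCast, Nat.cast_mul]

variable (p : ℕ) [ExpChar K p] (e : ℕ)

theorem z_eq {x : K} (hx : x ≠ θ 0) (k : Fin (h + 1)) :
    ((x - θ k) / (x - θ 0)) ^ p ^ e = 1 + (θ 0 - θ k) ^ p ^ e * (x - θ 0)⁻¹ ^ p ^ e := by
  have := sub_ne_zero.2 hx
  rw [← mul_pow, ← one_pow (M := K) (p ^ e), ← add_pow_expChar_pow]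
  congr 1
  field_simp
  ring

theorem fr_inj {a b : K} (h : a ^ p ^ e = b ^ p ^ e) : a = b :=
  (iterateFrobenius K p e).injective h

/-- The three numbers with sum zero. -/
def tri (θ : Fin (h + 1) → K) (Q : ℕ) (k l : Fin (h + 1)) (x : K) : Fin 3 → K :=
  ![(θ 0 - θ l) ^ Q * ((x - θ k) / (x - θ 0)) ^ Q, -(θ 0 - θ k) ^ Q * ((x - θ l) / (x - θ 0)) ^ Q,
    (θ 0 - θ k) ^ Q - (θ 0 - θ l) ^ Q]

theorem tri_sum {x : K} (hx : x ≠ θ 0) (k l : Fin (h + 1)) :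
    tri θ (p ^ e) k l x 0 + tri θ (p ^ e) k l x 1 + tri θ (p ^ e) k l x 2 = 0 := by
  simp only [tri, Matrix.cons_val, z_eq p e hx]
  ring

theorem d_ne (hθ : θ.Injective) {k l : Fin (h + 1)} (hk : k ≠ l) :
    (θ 0 - θ k) ^ p ^ e - (θ 0 - θ l) ^ p ^ e ≠ 0 :=
  fun h => hk (hθ (sub_right_injective (fr_inj p e (sub_eq_zero.1 h))))

variable [IsAlgClosed K]

theorem step6 (hh : 1 ≤ h) (hg : Gen θ S) {n B : ℕ} {ν : Fin (h + 1) → Fin (h + 1) → ℤ}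
    (hn : (n : K) ≠ 0) (h0 : n < #S) (h1 : n * ((h + 1) * B) < #S) (h2 : ν 0 = 0)
    (h3 : ∀ k j, |ν k j| ≤ B) (h4 : ∀ k, ((p : ℤ) ^ e * n) • dv k 0 - ν k ∈ Lat θ S) :
    ∃ (t : ℕ) (σ : Equiv.Perm (Fin (h + 1))), t ≠ 0 ∧ ∀ k, ν k = (t : ℤ) • dv (σ k) (σ 0) := by
  have a1 : ∀ k, ∑ j, ν k j = 0 := fun k => by
    simpa [sum_sub_distrib, ← mul_sum, sum_dv] using (h4 k).1
  refine cols hh h2 a1 (fun k hk a2 => ?_) fun k hk l hl hkl j => ?_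
  · have a3 := h4 k
    rw [a2, sub_zero, mul_smul] at a3
    have := hg.min (lat_sat p e a3) (fun a4 => hn (by
      have := congrFun a4 k
      simp [dv_apply, hk] at this
      simp [this])) (b := Pi.single 0 n) fun j => by
        rw [Pi.smul_apply, dv_apply, Pi.single_apply]
        split_ifs <;> simp
    simp at this
    omega
  · obtain ⟨c, c1, c2⟩ := lat_pow (Q := p ^ e) hg (by exact_mod_cast h4 k)
    obtain ⟨c', c3, c4⟩ := lat_pow (Q := p ^ e) hg (by exact_mod_cast h4 l)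
    have d := fun k (hk : k ≠ 0) => pow_ne_zero (p ^ e) (sub_ne_zero.2 (hg.1.ne hk.symm))
    have := trop hn hg (ν := ![ν k, ν l, 0]) (B := B)
      (a := ![((θ 0 - θ l) ^ p ^ e) ^ n * c, (-(θ 0 - θ k) ^ p ^ e) ^ n * c',
        ((θ 0 - θ k) ^ p ^ e - (θ 0 - θ l) ^ p ^ e) ^ n])
      (Fin.forall_fin_succ.2 ⟨mul_ne_zero (pow_ne_zero _ (d l hl)) c1, Fin.forall_fin_two.2
        ⟨mul_ne_zero (pow_ne_zero _ (neg_ne_zero.2 (d k hk))) c3, pow_ne_zero _ (d_ne p e hg.1 hkl)⟩⟩)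
      (Fin.forall_fin_succ.2 ⟨a1 k, Fin.forall_fin_two.2 ⟨a1 l, by simp⟩⟩)
      (Fin.forall_fin_succ.2 ⟨h3 k, Fin.forall_fin_two.2 ⟨h3 l, by simp⟩⟩) rfl (by simpa using h1)
      (fun x hx => ⟨tri θ (p ^ e) k l x, tri_sum p e (hg.2 x hx 0) k l, Fin.forall_fin_succ.2
        ⟨(mul_pow _ _ _).trans (by rw [c2 x hx, ← mul_assoc]; rfl), Fin.forall_fin_two.2
          ⟨(mul_pow _ _ _).trans (by rw [c4 x hx, ← mul_assoc]; rfl), by simp [tri, ch]⟩⟩⟩) j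
    obtain ⟨i, b1, b2⟩ := this 0
    obtain ⟨i', b3, b4⟩ := this 2
    fin_cases i <;> fin_cases i' <;> simp_all

theorem step7 (hh : 2 ≤ h) (hg : Gen θ S) {n t : ℕ} {σ : Equiv.Perm (Fin (h + 1))}
    (hn : (n : K) ≠ 0) (ht : (t : K) ≠ 0) (h1 : n * t < #S)
    (h4 : ∀ k, ((p : ℤ) ^ e * n) • dv k 0 - (t : ℤ) • dv (σ k) (σ 0) ∈ Lat θ S) (k : Fin (h + 1)) :
    ∃ T : Finset K, #T ≤ n * n ∧ ∀ S₀ ⊆ S, (∀ x ∈ S₀, x ∉ T) →
      (p : ℤ) ^ e • dv k 0 - dv (σ k) (σ 0) ∈ Lat θ S₀ := by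
  classical
  by_cases hk : k = 0
  · exact ⟨∅, by simp, fun _ _ _ => by simp [hk, dv]⟩
  obtain ⟨l, hl, hkl⟩ : ∃ l, l ≠ 0 ∧ k ≠ l := by
    by_cases a : k = ⟨1, by omega⟩
    · exact ⟨⟨2, by omega⟩, by simp, by simp [a]⟩
    · exact ⟨_, by simp, a⟩
  obtain ⟨c, c1, c2⟩ := lat_pow (Q := p ^ e) hg (Nat.cast_pow (α := ℤ) p e ▸ h4 k)
  obtain ⟨c', c3, c4⟩ := lat_pow (Q := p ^ e) hg (Nat.cast_pow (α := ℤ) p e ▸ h4 l)
  have d := fun k (hk : k ≠ 0) => pow_ne_zero (p ^ e) (sub_ne_zero.2 (hg.1.ne hk.symm))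
  have d' := d_ne p e hg.1 hkl
  have u := fun x hx j => sub_ne_zero.2 (hg.2 x hx j)
  obtain ⟨T, a1, a2⟩ := dual hn ht h1 (θ := ![θ (σ k), θ (σ l), θ (σ 0)])
    (a := ![((θ 0 - θ l) ^ p ^ e) ^ n * c, (-(θ 0 - θ k) ^ p ^ e) ^ n * c',
      ((θ 0 - θ k) ^ p ^ e - (θ 0 - θ l) ^ p ^ e) ^ n])
    (y := tri θ (p ^ e) k l) (c := fun x => (x - θ (σ 0)) ^ t)
    (fun x hx => Fin.forall_fin_succ.2 ⟨hg.2 x hx _, Fin.forall_fin_two.2 ⟨hg.2 x hx _, hg.2 x hx _⟩⟩)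
    (fun x hx => tri_sum p e (hg.2 x hx 0) k l) (fun x hx => pow_ne_zero _ (u x hx _))
    fun x hx i => by
      have := u x hx (σ 0)
      fin_cases i <;> simp only [tri, Fin.zero_eta, Fin.mk_one, Fin.reduceFinMk, Matrix.cons_val,
        mul_pow, c2 x hx, c4 x hx, ch_zsmul, ch_dv (hg.2 x hx), zpow_natCast,
        div_pow (x - θ (σ _))] <;> field_simp
  refine ⟨S.filter fun x => tri θ (p ^ e) k l x 1 / tri θ (p ^ e) k l x 2 ∈ T,
    (card_le_card_of_injOn _ (fun x hx => (mem_filter.1 hx).2) fun x hx x' hx' a3 => ?_).trans a1,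
    fun S₀ b1 b2 => ⟨by simp [sum_sub_distrib, ← mul_sum, sum_dv],
      -((θ 0 - θ k) ^ p ^ e - (θ 0 - θ l) ^ p ^ e) * (θ (σ 0) - θ (σ l)) /
        ((θ (σ k) - θ (σ l)) * (θ 0 - θ l) ^ p ^ e), ?_, fun x hx a3 => ?_⟩⟩
  · have := mul_left_cancel₀ (neg_ne_zero.2 (d k hk)) ((div_left_inj' d').1 a3)
    rw [z_eq p e (hg.2 x (mem_filter.1 hx).1 0), z_eq p e (hg.2 x' (mem_filter.1 hx').1 0)] at this
    exact sub_left_injective (inv_injective (fr_inj p e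
      (mul_left_cancel₀ (d l hl) (add_left_cancel this))))
  · exact div_ne_zero (mul_ne_zero (neg_ne_zero.2 d') (sub_ne_zero.2 (hg.1.ne (σ.injective.ne
      hl.symm)))) (mul_ne_zero (sub_ne_zero.2 (hg.1.ne (σ.injective.ne hkl))) (d l hl))
  · have b3 := a2 x (b1 hx) d' fun b => b2 x hx (mem_filter.2 ⟨b1 hx, b⟩)
    have b4 := tri_sum p e (a3 0) k l
    have b5 := sub_ne_zero.2 (hg.1.ne (σ.injective.ne hkl))
    have b6 := d l hl
    have b7 := u x (b1 hx) (σ 0)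
    have b8 := u x (b1 hx) (σ k)
    have b9 := u x (b1 hx) (σ l)
    rw [sub_eq_add_neg, ch_add a3, ch_neg, ch_zsmul, ch_dv a3, ch_dv a3, ← Nat.cast_pow,
      zpow_natCast]
    simp only [tri, Matrix.cons_val] at b3 b4
    rw [eq_neg_of_add_eq_zero_right ((add_right_comm _ _ _).trans b4)] at b3
    generalize ((x - θ k) / (x - θ 0)) ^ p ^ e = z at b3 ⊢
    field_simp at b3 ⊢
    linear_combination b3

omit [IsAlgClosed K] [ExpChar K p] in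
theorem frob (h c : ℕ) (hh : 2 ≤ h) (hc : 0 < c) : ∃ C : ℕ, ∀ (K : Type) [Field K] [IsAlgClosed K]
    (p : ℕ) [ExpChar K p] (θ : Fin (h + 1) → K) (S : Finset K) (Γ : Type) [Fintype Γ]
    (χ : (Fin h → ℤ) → Γ), Gen θ S → C < #S → (∀ β β', χ β = χ β' → ex (β - β') ∈ Lat θ S) →
    Fintype.card Γ < (c * #S) ^ h → ∃ (e : ℕ) (σ : Equiv.Perm (Fin (h + 1))), ∃ S₀ ⊆ S,
      #S ≤ #S₀ + C ∧ p ^ e ≤ C * #S ∧ 1 < p ^ e ∧
      ∀ k, (p : ℤ) ^ e • dv k 0 - dv (σ k) (σ 0) ∈ Lat θ S₀ := by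
  obtain ⟨C, h1⟩ := diag h c hh hc
  refine ⟨C + (h + 1) * (C * C), fun K _ _ p _ θ S Γ _ χ hg hs hχ hΓ => ?_⟩
  classical
  obtain ⟨n, e, B, ν, a1, a2, a3, a4, a5, a6, a7, a8⟩ := h1 K p θ S Γ χ hg (by omega) hχ hΓ
  obtain ⟨t, σ, b1, b2⟩ := step6 p e (by omega) hg a1 (by omega) a5 a6 a7 a8
  have b3 : t ≤ B := by
    have := a7 (Fin.last h) (σ 0)
    have a : 0 ≠ Fin.last h := by simp [Fin.ext_iff]; omega
    simpa [b2, dv_apply, a] using this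
  obtain ⟨a, t', c1, rfl⟩ := split_p K p b1
  have c2 := expChar_pow_pos K p a
  have c3 : p ^ a < p ^ e :=
    ((Nat.le_mul_of_pos_right _ (Nat.pos_of_ne_zero (right_ne_zero_of_mul b1))).trans b3).trans_lt a4
  obtain ⟨e, rfl⟩ := Nat.exists_eq_add_of_le (show a ≤ e from not_lt.1 fun h' =>
    absurd (Nat.pow_le_pow_right (expChar_pos K p) h'.le) (not_le.2 c3))
  rw [pow_add] at a3 c3
  choose T d1 d2 using step7 p e hh hg a1 c1 (σ := σ) ((Nat.mul_le_mul_left n (((Nat.le_mul_of_pos_left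
    _ c2).trans b3).trans (Nat.le_mul_of_pos_left _ h.succ_pos))).trans_lt a5)
    fun k => lat_sat p a (by
      have := a8 k
      rw [b2] at this
      convert this using 1
      simp only [smul_sub, smul_smul, pow_add, mul_assoc, Nat.cast_mul, Nat.cast_pow])
  refine ⟨e, σ, S \ univ.biUnion T, sdiff_subset, (card_le_card_sdiff_add_card (t := univ.biUnion T)).trans ?_,
    ((Nat.le_mul_of_pos_left _ c2).trans a3).trans (Nat.mul_le_mul_right _ (by omega)),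
    (Nat.lt_mul_iff_one_lt_right c2).1 c3, fun k => d2 k _ sdiff_subset fun x hx hx' =>
      (mem_sdiff.1 hx).2 (mem_biUnion.2 ⟨k, mem_univ _, hx'⟩)⟩
  have := card_biUnion_le_card_mul univ T _ fun k _ => (d1 k).trans (Nat.mul_le_mul a2 a2)
  rw [card_univ, Fintype.card_fin] at this
  omega

end Pool.Agent.Lib.MP_a8c702_nt.LT
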