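import Pool.Agent.Lib.MP_a8c702_nt.LT.Step

/-! The lattice of monomials that are constant on a set of points. -/

namespace Pool.Agent.Lib.MP_a8c702_nt.LT

open Finset Polynomial

variable {K : Type} [Field K] {J : Type} [Fintype J] {θ : J → K} {S : Finset K} {x : K}
  {l : J → ℤ}

/-- The value of a monomial with integer exponents. -/
def ch (θ : J → K) (x : K) (l : J → ℤ) : K := ∏ j, (x - θ j) ^ l j

theorem ch_add (hx : ∀ j, x ≠ θ j) (l l' : J → ℤ) : ch θ x (l + l') = ch θ x l * ch θ x l' := by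
  rw [ch, ch, ch, ← prod_mul_distrib]
  exact prod_congr rfl fun j _ => zpow_add₀ (sub_ne_zero.2 (hx j)) _ _

theorem ch_zsmul (n : ℤ) (l : J → ℤ) : ch θ x (n • l) = ch θ x l ^ n := by
  rw [ch, ch, ← prod_zpow]
  exact prod_congr rfl fun j _ => by rw [← zpow_mul, mul_comm]; rfl

theorem ch_neg (l : J → ℤ) : ch θ x (-l) = (ch θ x l)⁻¹ := by
  rw [← neg_one_zsmul, ch_zsmul, zpow_neg_one]

theorem ch_nat (m : J → ℕ) : ch θ x (fun j => m j) = ∏ j, (x - θ j) ^ m j := by simp [ch]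

theorem ch_single [DecidableEq J] (j : J) : ch θ x (Pi.single j 1) = x - θ j := by
  rw [ch, prod_eq_single j (fun b _ hb => by simp [hb]) (by simp)]
  simp

/-- Exponent vectors of sum zero whose monomial is constant on `S`. -/
def Lat (θ : J → K) (S : Finset K) : AddSubgroup (J → ℤ) where
  carrier := {l | ∑ j, l j = 0 ∧ ∃ c ≠ 0, ∀ x ∈ S, (∀ j, x ≠ θ j) → ch θ x l = c}
  add_mem' := by
    rintro l l' ⟨h1, c, h2, h3⟩ ⟨h4, c', h5, h6⟩
    exact ⟨by simp [sum_add_distrib, h1, h4], c * c', mul_ne_zero h2 h5, fun x hx h => by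
      rw [ch_add h, h3 x hx h, h6 x hx h]⟩
  zero_mem' := ⟨by simp, 1, one_ne_zero, fun x _ _ => by simp [ch]⟩
  neg_mem' := by
    rintro l ⟨h1, c, h2, h3⟩
    exact ⟨by simp [h1], c⁻¹, inv_ne_zero h2, fun x hx h => by rw [ch_neg, h3 x hx h]⟩

/-- Distinct poles, and points that avoid them. -/
def Gen (θ : J → K) (S : Finset K) : Prop := θ.Injective ∧ ∀ x ∈ S, ∀ j, x ≠ θ j

omit [Field K] [Fintype J] in
theorem Gen.mono {S' : Finset K} (h : Gen θ S) (hS : S' ⊆ S) : Gen θ S' :=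
  ⟨h.1, fun x hx => h.2 x (hS hx)⟩

theorem lat_mono {S' : Finset K} (hS : S' ⊆ S) (h : l ∈ Lat θ S) : l ∈ Lat θ S' :=
  ⟨h.1, h.2.imp fun _ h => ⟨h.1, fun x hx => h.2 x (hS hx)⟩⟩

theorem shift (hx : ∀ j, x ≠ θ j) {b : J → ℕ} (hb : ∀ j, -(b j : ℤ) ≤ l j) :
    ∏ j, (x - θ j) ^ (b j + l j).toNat = ch θ x l * ∏ j, (x - θ j) ^ b j := by
  rw [← ch_nat, ← ch_nat, ← ch_add hx]
  congr 1
  funext j
  have := hb j
  simp only [Pi.add_apply]
  omega

theorem sum_shift (hl : ∑ j, l j = 0) {b : J → ℕ} (hb : ∀ j, -(b j : ℤ) ≤ l j) :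
    ∑ j, (b j + l j).toNat = ∑ j, b j := by
  zify
  rw [sum_congr rfl fun j _ => Int.toNat_of_nonneg (a := b j + l j) (by have := hb j; omega),
    sum_add_distrib, hl, add_zero]

theorem Gen.min (h : Gen θ S) (hl : l ∈ Lat θ S) (h0 : l ≠ 0) {b : J → ℕ}
    (hb : ∀ j, -(b j : ℤ) ≤ l j) : #S ≤ ∑ j, b j := by
  obtain ⟨h1, c, h2, h3⟩ := hl
  by_contra! hc
  have := eq_zero_of_natDegree_lt_card_of_eval_eq_zero'
    (C 1 * mo univ θ (fun j => (b j + l j).toNat) - C c * mo univ θ b) S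
    (fun x hx => by
      rw [eval_sub, eval_C_mul, eval_C_mul, eval_mo, eval_mo, shift (h.2 x hx) hb,
        h3 x hx (h.2 x hx), one_mul, sub_self])
    (((natDegree_sub_le _ _).trans (max_le
      ((natDegree_C_mul_le _ _).trans (by rw [natDegree_mo, sum_shift h1 hb]))
      ((natDegree_C_mul_le _ _).trans (natDegree_mo _ _ _).le))).trans_lt hc)
  refine h0 (funext fun j => ?_)
  have a1 := rm_mo h.1.injOn (fun j => (b j + l j).toNat) (one_ne_zero (α := K)) (mem_univ j)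
  rw [sub_eq_zero.1 this, rm_mo h.1.injOn b h2 (mem_univ j)] at a1
  have := hb j
  simp only [Pi.zero_apply]
  omega

theorem Gen.min_abs (h : Gen θ S) (hl : l ∈ Lat θ S) (h0 : l ≠ 0) : (#S : ℤ) ≤ ∑ j, |l j| := by
  have := h.min hl h0 (b := fun j => (l j).natAbs) fun j => by omega
  zify at this
  exact this

theorem Gen.small (h : Gen θ S) (hl : l ∈ Lat θ S) {B : ℤ} (hB : ∀ j, |l j| ≤ B)
    (hs : Fintype.card J * B < #S) : l = 0 := by
  by_contra h0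
  have := (h.min_abs hl h0).trans (sum_le_card_nsmul _ _ B fun j _ => hB j)
  rw [nsmul_eq_mul, card_univ] at this
  exact absurd this (not_le.2 hs)

theorem lat_sat [IsAlgClosed K] (p : ℕ) [ExpChar K p] (e : ℕ) (hl : (p : ℤ) ^ e • l ∈ Lat θ S) :
    l ∈ Lat θ S := by
  obtain ⟨h1, c, h2, h3⟩ := hl
  have hp := expChar_pow_pos K p e
  obtain ⟨c', rfl⟩ := IsAlgClosed.exists_pow_nat_eq c hp
  refine ⟨?_, c', fun h => h2 (by rw [h, zero_pow hp.ne']), fun x hx h =>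
    (iterateFrobenius K p e).injective ?_⟩
  · simp only [Pi.smul_apply, smul_eq_mul, ← mul_sum] at h1
    exact (mul_eq_zero.1 h1).resolve_left (by exact_mod_cast hp.ne')
  · rw [iterateFrobenius_def, iterateFrobenius_def, ← h3 x hx h, ch_zsmul, ← zpow_natCast]
    norm_cast

theorem link (H N : ℕ) : ∃ r, ∀ (K : Type) [Field K] [IsAlgClosed K] (p : ℕ) [ExpChar K p]
    (θ : Fin H → K) (S : Finset K) (α : Type) [Fintype α] (n : α → Fin H → ℤ) (b : Fin H → ℕ)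
    (j₀ : Fin H), Gen θ S → Fintype.card α ≤ N → (∀ a, n a ∈ Lat θ S) →
    (∀ a j, -(b j : ℤ) ≤ n a j) → ∑ j, b j + H * N * N < (Fintype.card α - 1) * #S →
    ∃ a a', a ≠ a' ∧ |n a j₀ - n a' j₀| ≤ (H * N * N : ℕ) ∧ ∀ j, Str p r (n a j - n a' j) := by
  obtain ⟨r, hr⟩ := exists_V N (H + H * N * N)
  refine ⟨r, fun K _ _ p _ θ S α _ n b j₀ hg hN hn hb hs => ?_⟩
  classical
  choose h1 c h2 h3 using hn
  obtain ⟨β, a1, ⟨i, a2⟩, a3⟩ := bound θ hN (δ := ∑ j, b j)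
    (Nat.pos_of_ne_zero fun h => by simp [h] at hs) (fun a j => (b j + n a j).toNat)
    (fun a => (c a)⁻¹) S (fun a => (sum_shift (h1 a) (hb a)).le)
    (fun x hx => ⟨hg.2 x hx, ∏ j, (x - θ j) ^ b j, fun a => by
      rw [shift (hg.2 x hx) (hb a), h3 a x hx (hg.2 x hx), inv_mul_cancel_left₀ (h2 a)]⟩)
    (by rwa [Fintype.card_fin])
  rw [Fintype.card_fin] at a1
  have a4 : ∀ a, C (c a)⁻¹ * mo univ θ (fun j => (b j + n a j).toNat) ≠ 0 := fun a =>
    mul_ne_zero (C_ne_zero.2 (inv_ne_zero (h2 a))) (mo_monic _ _ _).ne_zero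
  obtain ⟨B, -, b1, b2, b3, b4⟩ := hr K p α univ univ (univ.image θ) _ β hN
    (fun _ _ _ => mem_univ _) (card_image_le.trans (by simp))
    (fun a _ => ⟨a4 a, fun t ht => mem_image.2 (root_mo (inv_ne_zero (h2 a)) ht)⟩)
    (fun a => (a1 a).trans (Nat.le_add_left _ _)) a3 i (mem_univ _) a2
  have a5 := fun a j => rm_mo hg.1.injOn (fun j => (b j + n a j).toNat) (inv_ne_zero (h2 a))
    (mem_univ j)
  have a6 := fun a ha => mul_ne_zero (b2 a ha) (a4 a)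
  obtain ⟨a, ha, a', ha', c1, c2⟩ := twice ⟨i, b1⟩ a6 b3 (θ j₀)
  refine ⟨a, a', c1, ?_, fun j => ?_⟩
  · rw [rootMultiplicity_mul (a6 a ha), rootMultiplicity_mul (a6 a' ha'), a5, a5] at c2
    have := (rm_le _ (θ j₀)).trans (a1 a)
    have := (rm_le _ (θ j₀)).trans (a1 a')
    have := hb a j₀
    have := hb a' j₀
    rw [abs_le]
    omega
  · have := b4 a ha a' ha' (θ j)
    rw [a5, a5] at this
    convert this using 1
    have := hb a j
    have := hb a' j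
    omega

theorem grid (H c : ℕ) : ∃ r N s₀ : ℕ, ∀ (K : Type) [Field K] [IsAlgClosed K] (p : ℕ)
    [ExpChar K p] (θ : Fin H → K) (S : Finset K), Gen θ S → s₀ ≤ #S → ∀ a ∈ Lat θ S,
    ∀ b ∈ Lat θ S, a ≠ 0 → (∀ k, |a k| ≤ c * #S) → (∀ k, |b k| ≤ c * #S) →
    ∃ i j : ℤ, |i| ≤ N ∧ |j| ≤ N ∧ j ≠ 0 ∧ ∀ k, Str p r (i * a k + j * b k) := by
  obtain ⟨N, hN⟩ : ∃ N, N = 2 * H * c + 2 := ⟨_, rfl⟩
  obtain ⟨r, hr⟩ := link H (N * N)
  obtain ⟨E, hE⟩ : ∃ E, E = H * (N * N) * (N * N) := ⟨_, rfl⟩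
  rw [← hE] at hr
  refine ⟨r, N, H * E + E + 1, fun K _ _ p _ θ S hg hs a ha b hb h0 h1 h2 => ?_⟩
  obtain ⟨k, hk⟩ : ∃ k, (E : ℤ) < |a k| := by
    by_contra! hc
    exact h0 (hg.small ha hc (by rw [Fintype.card_fin]; norm_cast; omega))
  obtain ⟨u, v, a1, a2, a3⟩ := hr K p θ S (Fin N × Fin N)
    (fun u => ((u.1 : ℕ) : ℤ) • a + ((u.2 : ℕ) : ℤ) • b) (fun _ => 2 * N * (c * #S)) k hg (by simp)
    (fun u => add_mem (zsmul_mem ha _) (zsmul_mem hb _))
    (fun u j => by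
      have b1 := (abs_le.1 (h1 j)).1
      have b2 := (abs_le.1 (h2 j)).1
      have b3 : ((u.1 : ℕ) : ℤ) ≤ N := by exact_mod_cast u.1.2.le
      have b4 : ((u.2 : ℕ) : ℤ) ≤ N := by exact_mod_cast u.2.2.le
      have b5 : (0 : ℤ) ≤ c * #S := by positivity
      simp only [Pi.add_apply, Pi.smul_apply, smul_eq_mul]
      push_cast
      nlinarith [Int.natCast_nonneg u.1, Int.natCast_nonneg u.2])
    (by
      have : N * N - 1 = 2 * H * c * N + (4 * H * c + 3) := by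
        rw [hN]
        exact Nat.sub_eq_of_eq_add (by ring)
      rw [Fintype.card_prod, Fintype.card_fin, this, sum_const, card_univ, Fintype.card_fin,
        smul_eq_mul]
      nlinarith [Nat.zero_le (H * c * #S), Nat.zero_le (H * E)])
  simp only [Pi.add_apply, Pi.smul_apply, smul_eq_mul] at a2 a3
  refine ⟨(u.1 : ℕ) - (v.1 : ℕ), (u.2 : ℕ) - (v.2 : ℕ), by rw [abs_le]; omega,
    by rw [abs_le]; omega, fun h => ?_, fun j => by convert a3 j using 1; ring⟩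
  have b1 : u.2 = v.2 := Fin.ext (by omega)
  have b2 : ((u.1 : ℕ) : ℤ) - (v.1 : ℕ) ≠ 0 := fun h => a1 (Prod.ext (Fin.ext (by omega)) b1)
  rw [b1, add_sub_add_right_eq_sub, ← sub_mul, abs_mul] at a2
  nlinarith [Int.one_le_abs b2, abs_nonneg (a k)]

end Pool.Agent.Lib.MP_a8c702_nt.LT
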