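import Pool.Agent.Lib.MP_a8c702_nt.LT.Unit

/-! An auxiliary polynomial with bounded coefficients. -/

namespace Pool.Agent.Lib.MP_a8c702_nt.LT

open Finset Polynomial

variable {K : Type} [Field K] {ι J : Type} {H a b : ℕ}

/-- The coefficient of index `r` has degree at most `a + H r`. -/
def Gd (H a : ℕ) (F : K[X][X]) : Prop := ∀ r, (F.coeff r).natDegree ≤ a + H * r

theorem Gd.mul {F G : K[X][X]} (hF : Gd H a F) (hG : Gd H b G) : Gd H (a + b) (F * G) :=
  fun r => by
    rw [coeff_mul]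
    refine natDegree_sum_le_of_forall_le _ _ fun x hx => natDegree_mul_le.trans ?_
    rw [← mem_antidiagonal.1 hx, mul_add, add_add_add_comm]
    exact add_le_add (hF _) (hG _)

theorem gd_one : Gd H 0 (1 : K[X][X]) := fun r => by
  rw [coeff_one]
  split_ifs <;> simp

theorem Gd.pow {F : K[X][X]} (hF : Gd H a F) (n : ℕ) : Gd H (n * a) (F ^ n) := by
  induction n with
  | zero => simpa using gd_one
  | succ n ih => rw [pow_succ, add_mul, one_mul]; exact ih.mul hF

theorem gd_lin {u v : K[X]} (hu : u.natDegree ≤ a) (hv : v.natDegree ≤ a + H) :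
    Gd H a (C u + C v * X) := fun r => by
  rw [coeff_add, coeff_C, coeff_C_mul_X]
  rcases r with _ | _ | r <;> simp [hu, hv]

theorem gd_prod (A : Finset J) {F : J → K[X][X]} (h : ∀ j, Gd H 0 (F j)) :
    Gd H 0 (∏ j ∈ A, F j) :=
  prod_induction _ _ (fun _ _ h1 h2 => h1.mul h2) gd_one fun j _ => h j

theorem stepanov [Fintype ι] [Fintype J] (θ : J → K) (s τ : ℕ) (m : ι → J → ℕ) (κ : ι → K)
    (hc : ∑ r ∈ range s, (τ + Fintype.card J * r + 1) < Fintype.card ι * (τ + 1)) :
    ∃ β : ι → K[X], (∀ i, (β i).natDegree ≤ τ) ∧ (∃ i, β i ≠ 0) ∧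
      ∀ ξ c : K, (∀ j, ξ ≠ θ j) → (∀ i, κ i * ∏ j, (ξ - θ j) ^ m i j = c) →
        (X - C ξ) ^ s ∣ ∑ i, β i * (C (κ i) * mo univ θ (m i)) := by
  classical
  let R : Finset J → K[X] := fun A => ∏ j ∈ A, (X - C (θ j))
  have hR : ∀ A, (R A).natDegree ≤ Fintype.card J := fun A => by
    rw [natDegree_prod_of_monic _ _ fun _ _ => monic_X_sub_C _]
    simpa using card_le_univ A
  let E : ι × Fin (τ + 1) → K[X][X] := fun u =>
    (C X + C (R univ) * X) ^ (u.2 : ℕ) * ∏ j, (C 1 + C (R (univ.erase j)) * X) ^ m u.1 j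
  have hE : ∀ u r, ((E u).coeff r).natDegree ≤ τ + Fintype.card J * r := fun u r => by
    refine (((gd_lin natDegree_X_le ((hR _).trans (Nat.le_add_left _ _))).pow _).mul
      (gd_prod univ fun j => by
        simpa using (gd_lin (a := 0) natDegree_one.le (by simpa using hR _)).pow _) r).trans ?_
    have := u.2.2
    omega
  let A : Matrix (Σ r : Fin s, Fin (τ + Fintype.card J * r + 1)) (ι × Fin (τ + 1)) K :=
    fun x u => ((E u).coeff x.1).coeff x.2
  obtain ⟨c, hc0, hc1⟩ := (Submodule.ne_bot_iff _).1 (LinearMap.ker_ne_bot_of_finrank_lt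
    (f := A.mulVecLin) (by
      simp only [Module.finrank_fintype_fun_eq_card, Fintype.card_sigma, Fintype.card_fin,
        Fintype.card_prod]
      rwa [Fin.sum_univ_eq_sum_range (fun r => τ + Fintype.card J * r + 1) s]))
  have hΨ : (X : K[X][X]) ^ s ∣ ∑ u, C (C (c u)) * E u := by
    refine X_pow_dvd_iff.2 fun r hr => ?_
    rw [finsetSum_coeff]
    ext d
    rw [finsetSum_coeff, coeff_zero]
    simp only [coeff_C_mul]
    by_cases hd : d < τ + Fintype.card J * r + 1
    · have := congrFun (LinearMap.mem_ker.1 hc0) ⟨⟨r, hr⟩, ⟨d, hd⟩⟩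
      exact (sum_congr rfl fun u _ => mul_comm _ _).trans this
    · exact sum_eq_zero fun u _ => by
        rw [coeff_eq_zero_of_natDegree_lt ((hE u r).trans_lt (by omega)), mul_zero]
  refine ⟨fun j => ∑ t : Fin (τ + 1), C (c (j, t)) * X ^ (t : ℕ), fun j =>
    natDegree_sum_le_of_forall_le _ _ fun t _ => (natDegree_C_mul_X_pow_le _ _).trans
      (Nat.lt_succ_iff.1 t.2), ?_, fun ξ c₀ h0 hj => ?_⟩
  · obtain ⟨⟨j, t⟩, h⟩ := Function.ne_iff.1 hc1
    refine ⟨j, fun h' => h ?_⟩
    have := congrArg (coeff · t) h'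
    simp only [finsetSum_coeff, coeff_C_mul, coeff_X_pow, coeff_zero, Fin.val_inj] at this
    simpa using this
  · have h1 : ∀ A, (R A).eval ξ ≠ 0 := fun A => by
      simpa [R, eval_prod, prod_ne_zero_iff, sub_eq_zero] using fun j _ => h0 j
    let Z : K[X] := C ((R univ).eval ξ)⁻¹ * (X - C ξ)
    have h3 := map_dvd (compRingHom Z) (map_dvd (mapRingHom (evalRingHom ξ)) hΨ)
    have e1 : C ξ + C ((R univ).eval ξ) * Z = X := by
      rw [← mul_assoc, ← C_mul, mul_inv_cancel₀ (h1 _), C_1]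
      ring
    have e2 : ∀ j, C (ξ - θ j) * (1 + C ((R (univ.erase j)).eval ξ) * Z) = X - C (θ j) :=
      fun j => by
        have : (ξ - θ j) * (R (univ.erase j)).eval ξ = (R univ).eval ξ := by
          simp only [R]
          rw [← mul_prod_erase _ _ (mem_univ j), eval_mul]
          simp
        rw [mul_add, ← mul_assoc, ← C_mul, this, C_sub]
        linear_combination e1
    have e3 : ∑ i, (∑ t : Fin (τ + 1), C (c (i, t)) * X ^ (t : ℕ)) * (C (κ i) * mo univ θ (m i)) =
        C c₀ * compRingHom Z (mapRingHom (evalRingHom ξ) (∑ u, C (C (c u)) * E u)) := by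
      rw [map_sum, map_sum, mul_sum, Fintype.sum_prod_type]
      refine sum_congr rfl fun i _ => ?_
      rw [sum_mul]
      refine sum_congr rfl fun t _ => ?_
      simp only [E, map_mul, map_pow, map_add, map_one, map_prod, coe_mapRingHom, map_C, map_X,
        coe_evalRingHom, eval_C, eval_X, coe_compRingHom_apply, C_comp, X_comp]
      rw [e1, ← hj i, mo]
      simp only [← e2, mul_pow, prod_mul_distrib, map_mul, map_prod, map_pow]
      ring
    rw [e3]
    refine Dvd.dvd.mul_left (Dvd.dvd.trans ?_ h3) _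
    simp only [map_pow, coe_mapRingHom, map_X, coe_compRingHom_apply, X_comp]
    exact pow_dvd_pow_of_dvd (Dvd.intro_left _ rfl) s

/-- Either a bound for the number of points or a relation with small coefficients. -/
theorem bound [Fintype ι] [Fintype J] (θ : J → K) {N δ : ℕ} (hN : Fintype.card ι ≤ N)
    (h0 : 0 < Fintype.card ι) (m : ι → J → ℕ) (κ : ι → K) (T : Finset K)
    (hδ : ∀ i, ∑ j, m i j ≤ δ)
    (hT : ∀ ξ ∈ T, (∀ j, ξ ≠ θ j) ∧ ∃ c, ∀ i, κ i * ∏ j, (ξ - θ j) ^ m i j = c)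
    (hs : δ + Fintype.card J * N * N < (Fintype.card ι - 1) * #T) :
    ∃ β : ι → K[X], (∀ i, (β i).natDegree ≤ Fintype.card J * N * N) ∧ (∃ i, β i ≠ 0) ∧
      ∑ i, β i * (C (κ i) * mo univ θ (m i)) = 0 := by
  obtain ⟨k, hk⟩ := Nat.exists_eq_add_of_lt h0
  rw [zero_add] at hk
  obtain ⟨β, h1, h2, h3⟩ := stepanov θ k (Fintype.card J * N * N) m κ (by
    have a1 := sum_le_card_nsmul (range k) (fun r => Fintype.card J * r) (Fintype.card J * N)
      fun r hr => Nat.mul_le_mul_left _ (by have := mem_range.1 hr; omega)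
    have a2 : k * (Fintype.card J * N) ≤ Fintype.card J * N * N := by
      rw [mul_comm]
      exact Nat.mul_le_mul_left _ (by omega)
    simp only [sum_add_distrib, sum_const, card_range, smul_eq_mul, hk] at a1 ⊢
    nlinarith)
  refine ⟨β, h1, h2, by_contra fun h => ?_⟩
  have h4 : ∏ ξ ∈ T, (X - C ξ) ^ k ∣ ∑ i, β i * (C (κ i) * mo univ θ (m i)) :=
    prod_dvd_of_coprime (fun a _ b _ hab => (isCoprime_X_sub_C_of_isUnit_sub
      (sub_ne_zero.2 hab).isUnit).pow) fun ξ hξ => by
      obtain ⟨a0, c, a2⟩ := hT ξ hξ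
      exact h3 ξ c a0 a2
  have h5 := natDegree_le_of_dvd h4 h
  rw [natDegree_prod_of_monic _ _ fun ξ _ => (monic_X_sub_C ξ).pow k] at h5
  simp only [natDegree_pow, natDegree_X_sub_C, mul_one, sum_const, smul_eq_mul] at h5
  rw [hk, Nat.add_sub_cancel, mul_comm k] at hs
  refine absurd (h5.trans (natDegree_sum_le_of_forall_le _ _ fun i _ =>
    natDegree_mul_le.trans ?_)) (not_le.2 hs)
  have := natDegree_C_mul_le (κ i) (mo univ θ (m i))
  rw [natDegree_mo] at this
  have := h1 i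
  have := hδ i
  omega

end Pool.Agent.Lib.MP_a8c702_nt.LT
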