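import Mathlib

/-! Sums of boundedly many signed powers of `p`. -/

namespace Pool.Agent.Lib.MP_a8c702_nt.LT

open Finset

/-- The value of a list of signed powers. -/
def val (p : ℕ) (l : List (ℤ × ℕ)) : ℤ := (l.map fun t => t.1 * (p : ℤ) ^ t.2).sum

/-- `z` is a sum of at most `r` signed powers of `p`. -/
def Str (p r : ℕ) (z : ℤ) : Prop :=
  ∃ l : List (ℤ × ℕ), l.length ≤ r ∧ (∀ t ∈ l, |t.1| ≤ 1) ∧ z = val p l

variable {p r r' : ℕ} {z z' : ℤ}

theorem val_cons (t : ℤ × ℕ) (l : List (ℤ × ℕ)) : val p (t :: l) = t.1 * (p : ℤ) ^ t.2 + val p l := by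
  simp [val]

theorem Str.zero (p r : ℕ) : Str p r 0 := ⟨[], by simp, by simp, by simp [val]⟩

theorem Str.mono (h : Str p r z) (hr : r ≤ r') : Str p r' z :=
  h.imp fun _ h => ⟨h.1.trans hr, h.2⟩

theorem Str.add (h : Str p r z) (h' : Str p r' z') : Str p (r + r') (z + z') := by
  obtain ⟨l, h1, h2, rfl⟩ := h
  obtain ⟨l', h3, h4, rfl⟩ := h'
  refine ⟨l ++ l', by simpa using add_le_add h1 h3, fun t ht => ?_, by simp [val]⟩
  exact (List.mem_append.1 ht).elim (h2 t) (h4 t)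

theorem Str.neg (h : Str p r z) : Str p r (-z) := by
  obtain ⟨l, h1, h2, rfl⟩ := h
  refine ⟨l.map fun t => (-t.1, t.2), by simpa using h1, fun t ht => ?_, ?_⟩
  · obtain ⟨t', h3, rfl⟩ := List.mem_map.1 ht
    simpa using h2 t' h3
  · clear h1 h2
    induction l with
    | nil => simp [val]
    | cons t l ih => rw [List.map_cons, val_cons, val_cons, ← ih]; ring

theorem Str.sub (h : Str p r z) (h' : Str p r' z') : Str p (r + r') (z - z') := by
  rw [sub_eq_add_neg]
  exact h.add h'.neg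

theorem Str.mul_p (h : Str p r z) : Str p r (p * z) := by
  obtain ⟨l, h1, h2, rfl⟩ := h
  refine ⟨l.map fun t => (t.1, t.2 + 1), by simpa using h1, fun t ht => ?_, ?_⟩
  · obtain ⟨t', h3, rfl⟩ := List.mem_map.1 ht
    exact h2 t' h3
  · clear h1 h2
    induction l with
    | nil => simp [val]
    | cons t l ih => rw [List.map_cons, val_cons, val_cons, ← ih]; ring

theorem Str.nsmul (h : Str p r z) (n : ℕ) : Str p (n * r) (n * z) := by
  induction n with
  | zero => simpa using Str.zero p 0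
  | succ n ih =>
    have := ih.add h
    rwa [show n * r + r = (n + 1) * r by ring,
      show (n : ℤ) * z + z = ((n + 1 : ℕ) : ℤ) * z by push_cast; ring] at this

theorem Str.zsmul (h : Str p r z) {c : ℤ} {n : ℕ} (hc : |c| ≤ n) : Str p (n * r) (c * z) := by
  have h1 : c.natAbs ≤ n := by
    rw [Int.abs_eq_natAbs] at hc
    exact_mod_cast hc
  have h2 := (h.nsmul c.natAbs).mono (Nat.mul_le_mul_right r h1)
  rcases Int.natAbs_eq c with e | e
  · rwa [← e] at h2
  · have := h2.neg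
    rwa [← neg_mul, ← e] at this

theorem Str.of_abs (p : ℕ) (h : |z| ≤ r) : Str p r z := by
  have h1 : Str p 1 1 := ⟨[(1, 0)], by simp, by simp, by simp [val]⟩
  simpa using h1.zsmul h

theorem split (p c s e₀ : ℕ) (l : List (ℤ × ℕ))
    (h : ∀ t ∈ l, |t.1| ≤ 1 ∧ (c * p ^ t.2 ≤ s ∨ e₀ ≤ t.2)) :
    ∃ α μ : ℤ, val p l = (p : ℤ) ^ e₀ * α + μ ∧ c * |μ| ≤ l.length * s ∧
      ((∀ t ∈ l, c * p ^ t.2 ≤ s) → α = 0) := by
  induction l with
  | nil => exact ⟨0, 0, by simp [val], by simp, fun _ => rfl⟩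
  | cons t l ih =>
    obtain ⟨α, μ, h1, h2, h3⟩ := ih fun t' ht' => h t' (List.mem_cons_of_mem _ ht')
    obtain ⟨h4, h5⟩ := h t List.mem_cons_self
    by_cases h6 : c * p ^ t.2 ≤ s
    · refine ⟨α, t.1 * (p : ℤ) ^ t.2 + μ, by rw [val_cons, h1]; ring, ?_,
        fun h7 => h3 fun t' ht' => h7 t' (List.mem_cons_of_mem _ ht')⟩
      have h7 : (c : ℤ) * (p : ℤ) ^ t.2 ≤ s := by exact_mod_cast h6
      have h8 : |t.1 * (p : ℤ) ^ t.2| ≤ (p : ℤ) ^ t.2 := by
        rw [abs_mul, abs_of_nonneg (a := (p : ℤ) ^ t.2) (by positivity)]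
        exact mul_le_of_le_one_left (by positivity) h4
      have h9 := mul_le_mul_of_nonneg_left ((abs_add_le _ μ).trans (add_le_add h8 le_rfl))
        (Int.natCast_nonneg c)
      rw [List.length_cons]
      push_cast
      linarith
    · obtain ⟨d, hd⟩ := Nat.exists_eq_add_of_le (h5.resolve_left h6)
      refine ⟨t.1 * (p : ℤ) ^ d + α, μ, by rw [val_cons, h1, hd]; ring, ?_,
        fun h7 => absurd (h7 t List.mem_cons_self) h6⟩
      rw [List.length_cons]
      push_cast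
      linarith [Int.natCast_nonneg s]

/-- The scales. -/
def sc (r : ℕ) (g : ℕ → ℕ) : ℕ → ℕ
  | 0 => 1
  | i + 1 => sc r g i + (r + 1) * g (sc r g i)

theorem sc_mono (r : ℕ) (g : ℕ → ℕ) : Monotone (sc r g) :=
  monotone_nat_of_le_succ fun _ => Nat.le_add_right _ _

/-- A gap in the scales. -/
theorem gap (κ : Type) [Fintype κ] (r : ℕ) (g : ℕ → ℕ) : ∃ T : ℕ, ∀ (p s : ℕ) (z : κ → ℤ),
    (∀ k, Str p r (z k)) → ∃ (t e : ℕ) (α μ : κ → ℤ), 1 ≤ t ∧ t ≤ T ∧
      (∀ k, z k = (p : ℤ) ^ e * α k + μ k) ∧ (∀ k, g t * |μ k| ≤ s) ∧ (α = 0 ∨ s < t * p ^ e) := by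
  classical
  refine ⟨sc r g (Fintype.card κ * r), fun p s z hz => ?_⟩
  choose l h1 h2 h3 using hz
  let E : Finset ℕ := univ.biUnion fun k => ((l k).map Prod.snd).toFinset
  have hE : #E ≤ Fintype.card κ * r := card_biUnion_le_card_mul _ _ _ fun k _ =>
    (List.toFinset_card_le _).trans (by simpa using h1 k)
  have hm : ∀ k, ∀ t ∈ l k, t.2 ∈ E := fun k t ht =>
    mem_biUnion.2 ⟨k, mem_univ _, List.mem_toFinset.2 (List.mem_map.2 ⟨t, ht, rfl⟩)⟩
  obtain ⟨i, hi, hg⟩ : ∃ i ∈ range (Fintype.card κ * r + 1), ∀ e ∈ E,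
      sc r g (i + 1) * p ^ e ≤ s ∨ s < sc r g i * p ^ e := by
    by_contra! hc
    choose! f f1 f2 f3 using hc
    have := card_le_card_of_injOn f (s := range (Fintype.card κ * r + 1)) (t := E)
      (fun i hi => f1 i hi) (fun i hi j hj e => by
        by_contra hne
        rcases lt_or_gt_of_ne hne with h | h
        · have a1 := f2 i hi
          have a2 := f3 j hj
          have a3 := Nat.mul_le_mul_right (p ^ f j) (sc_mono r g (Nat.succ_le_of_lt h))
          rw [e] at a1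
          exact absurd (a3.trans a2) (not_le.2 a1)
        · have a1 := f2 j hj
          have a2 := f3 i hi
          have a3 := Nat.mul_le_mul_right (p ^ f i) (sc_mono r g (Nat.succ_le_of_lt h))
          rw [← e] at a1
          exact absurd (a3.trans a2) (not_le.2 a1))
    rw [card_range] at this
    omega
  have hs : ∀ e, sc r g (i + 1) * p ^ e ≤ s → (r + 1) * g (sc r g i) * p ^ e ≤ s := fun e h =>
    (Nat.mul_le_mul_right _ (Nat.le_add_left _ _)).trans h
  obtain ⟨e₀, a1, a2⟩ : ∃ e₀, (∀ e ∈ E, (r + 1) * g (sc r g i) * p ^ e ≤ s ∨ e₀ ≤ e) ∧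
      ((∀ e ∈ E, (r + 1) * g (sc r g i) * p ^ e ≤ s) ∨ s < sc r g i * p ^ e₀) := by
    by_cases hL : (E.filter fun e => s < sc r g i * p ^ e).Nonempty
    · refine ⟨_, fun e he => ?_, .inr (mem_filter.1 (min'_mem _ hL)).2⟩
      exact (hg e he).imp (hs e) fun h => min'_le _ _ (mem_filter.2 ⟨he, h⟩)
    · have : ∀ e ∈ E, (r + 1) * g (sc r g i) * p ^ e ≤ s := fun e he =>
        hs e ((hg e he).resolve_right fun h => hL ⟨e, mem_filter.2 ⟨he, h⟩⟩)
      exact ⟨0, fun e he => .inl (this e he), .inl this⟩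
  choose α μ b1 b2 b3 using fun k => split p ((r + 1) * g (sc r g i)) s e₀ (l k)
    fun t ht => ⟨h2 k t ht, a1 _ (hm k t ht)⟩
  refine ⟨sc r g i, e₀, α, μ, sc_mono r g (Nat.zero_le i), sc_mono r g (Nat.lt_succ_iff.1
    (mem_range.1 hi)), fun k => (h3 k).trans (b1 k), fun k => ?_,
    a2.imp_left fun h => funext fun k => b3 k fun t ht => h _ (hm k t ht)⟩
  have c1 := b2 k
  have c2 : ((l k).length : ℤ) ≤ r + 1 := by exact_mod_cast (h1 k).trans (Nat.le_succ r)
  have c3 := mul_le_mul_of_nonneg_right c2 (Int.natCast_nonneg s)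
  push_cast at c1
  have c4 : ((r : ℤ) + 1) * (g (sc r g i) * |μ k|) ≤ (r + 1) * s := by linarith
  exact le_of_mul_le_mul_left c4 (by positivity)

end Pool.Agent.Lib.MP_a8c702_nt.LT
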