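import Pool.Agent.Lib.MP_a8c702_nt.LT.Str

/-! Orders of the terms of a minimal vanishing sum of polynomials with few roots. -/

namespace Pool.Agent.Lib.MP_a8c702_nt.LT

open Finset Polynomial

variable {K : Type} [Field K] {ι J : Type}

theorem block {M : Type*} [AddCommGroup M] {I : Finset ι} {u : ι → M} (h : ∑ i ∈ I, u i = 0)
    {i : ι} (hi : i ∈ I) : ∃ B ⊆ I, i ∈ B ∧ ∑ i ∈ B, u i = 0 ∧
      ∀ B' ⊂ B, B'.Nonempty → ∑ i ∈ B', u i ≠ 0 := by
  classical
  obtain ⟨B, hB, hm⟩ := exists_min_image (I.powerset.filter fun B => i ∈ B ∧ ∑ i ∈ B, u i = 0)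
    card ⟨I, by simp [hi, h]⟩
  simp only [mem_filter, mem_powerset] at hB hm
  refine ⟨B, hB.1, hB.2.1, hB.2.2, fun B' h1 h2 h3 => ?_⟩
  by_cases h4 : i ∈ B'
  · exact absurd (hm B' ⟨h1.1.trans hB.1, h4, h3⟩) (not_le.2 (card_lt_card h1))
  · have h5 := sum_sdiff (f := u) h1.1
    rw [h3, add_zero, hB.2.2] at h5
    exact absurd (hm (B \ B') ⟨sdiff_subset.trans hB.1, mem_sdiff.2 ⟨hB.2.1, h4⟩, h5⟩)
      (not_le.2 (card_lt_card (sdiff_ssubset h1.1 h2)))

/-- A monomial in the linear forms. -/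
noncomputable def mo (A : Finset J) (θ : J → K) (m : J → ℕ) : K[X] :=
  ∏ j ∈ A, (X - C (θ j)) ^ m j

theorem mo_monic (A : Finset J) (θ : J → K) (m : J → ℕ) : (mo A θ m).Monic :=
  monic_prod_of_monic _ _ fun _ _ => (monic_X_sub_C _).pow _

theorem natDegree_mo (A : Finset J) (θ : J → K) (m : J → ℕ) :
    (mo A θ m).natDegree = ∑ j ∈ A, m j := by
  rw [mo, natDegree_prod_of_monic _ _ fun _ _ => (monic_X_sub_C _).pow _]
  simp [natDegree_pow]

theorem eval_mo (A : Finset J) (θ : J → K) (m : J → ℕ) (x : K) :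
    (mo A θ m).eval x = ∏ j ∈ A, (x - θ j) ^ m j := by
  simp [mo, eval_prod]

theorem root_mo {A : Finset J} {θ : J → K} {m : J → ℕ} {c x : K} (hc : c ≠ 0)
    (h : (C c * mo A θ m).IsRoot x) : ∃ j ∈ A, θ j = x := by
  rw [IsRoot, eval_mul, eval_C, eval_mo] at h
  obtain ⟨j, h1, h2⟩ := prod_eq_zero_iff.1 ((mul_eq_zero.1 h).resolve_left hc)
  exact ⟨j, h1, (sub_eq_zero.1 (pow_eq_zero_iff'.1 h2).1).symm⟩

theorem rm_mo {A : Finset J} {θ : J → K} (hθ : Set.InjOn θ A) (m : J → ℕ) {c : K} (hc : c ≠ 0)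
    {j : J} (hj : j ∈ A) : (C c * mo A θ m).rootMultiplicity (θ j) = m j := by
  classical
  have h1 : C c * mo A θ m = C c * mo (A.erase j) θ m * (X - C (θ j)) ^ m j := by
    rw [mul_assoc, mo, mo, prod_erase_mul _ _ hj]
  rw [h1, rootMultiplicity_mul_X_sub_C_pow (mul_ne_zero (C_ne_zero.2 hc) (mo_monic _ _ _).ne_zero),
    rootMultiplicity_eq_zero, zero_add]
  intro h
  obtain ⟨k, h2, h3⟩ := root_mo hc h
  exact (mem_erase.1 h2).1 (hθ (mem_of_mem_erase h2) hj h3)

theorem fac [IsAlgClosed K] {u : K[X]} {A : Finset K} (hu : u ≠ 0) (h : ∀ t, u.IsRoot t → t ∈ A) :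
    u = C u.leadingCoeff * mo A id fun t => u.rootMultiplicity t := by
  classical
  conv_lhs => rw [← C_leadingCoeff_mul_prod_multiset_X_sub_C
    (IsAlgClosed.card_roots_eq_natDegree (p := u)), prod_multiset_root_eq_finset_root]
  congr 1
  refine prod_subset (fun t ht => h t ((mem_roots hu).1 (Multiset.mem_toFinset.1 ht)))
    fun t _ ht => ?_
  rw [rootMultiplicity_eq_zero fun h' => ht (Multiset.mem_toFinset.2 ((mem_roots hu).2 h')),
    pow_zero]

/-- The numerator of the logarithmic derivative. -/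
noncomputable def ld [DecidableEq K] (A : Finset K) (e : K → ℕ) : K[X] :=
  ∑ t ∈ A, C (e t : K) * ∏ t' ∈ A.erase t, (X - C t')

theorem mul_deriv_mo [DecidableEq K] (A : Finset K) (e : K → ℕ) :
    (∏ t ∈ A, (X - C t)) * derivative (mo A id e) = ld A e * mo A id e := by
  rw [mo, derivative_prod_finset, ld, mul_sum, sum_mul]
  refine sum_congr rfl fun t ht => ?_
  rw [← prod_erase_mul A _ ht, ← prod_erase_mul A (fun j => (X - C (id j)) ^ e j) ht,
    derivative_X_sub_C_pow]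
  rcases h : e t with _ | n
  · simp
  · simp only [id, Nat.add_sub_cancel, pow_succ]
    ring

theorem natDegree_ld [DecidableEq K] (A : Finset K) (e : K → ℕ) : (ld A e).natDegree ≤ #A := by
  refine natDegree_sum_le_of_forall_le _ _ fun t _ => (natDegree_C_mul_le _ _).trans ?_
  rw [natDegree_prod_of_monic _ _ fun _ _ => monic_X_sub_C _]
  simpa using card_erase_le

theorem ld_inj [DecidableEq K] {A : Finset K} {e e' : K → ℕ} (h : ld A e = ld A e') {t : K}
    (ht : t ∈ A) : (e t : K) = e' t := by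
  have h1 : ∀ e : K → ℕ, (ld A e).eval t = e t * ∏ t' ∈ A.erase t, (t - t') := fun e => by
    rw [ld, eval_finsetSum, sum_eq_single t (fun b _ hb => ?_) fun h => absurd ht h]
    · simp [eval_prod]
    · rw [eval_mul, eval_prod, prod_eq_zero (mem_erase.2 ⟨hb.symm, ht⟩) (by simp), mul_zero]
  have h2 := h1 e
  rw [h, h1] at h2
  exact (mul_right_cancel₀ (prod_ne_zero_iff.2 fun b hb => sub_ne_zero.2 (mem_erase.1 hb).1.symm)
    h2).symm

theorem rm_le (ξ : K[X]) (t : K) : ξ.rootMultiplicity t ≤ ξ.natDegree := by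
  classical
  rw [← count_roots]
  exact (Multiset.count_le_card _ _).trans (card_roots' _)

/-- The statement for minimal sums. -/
def U (N n r : ℕ) : Prop :=
  ∀ (K : Type) [Field K] [IsAlgClosed K] (p : ℕ) [ExpChar K p] (ι : Type) (I : Finset ι)
    (A : Finset K) (u : ι → K[X]), #I ≤ N → #A ≤ n →
    (∀ i ∈ I, u i ≠ 0 ∧ ∀ t, (u i).IsRoot t → t ∈ A) → ∑ i ∈ I, u i = 0 →
    (∀ B ⊂ I, B.Nonempty → ∑ i ∈ B, u i ≠ 0) →
    ∀ i ∈ I, ∀ j ∈ I, ∀ t, Str p r ((u i).rootMultiplicity t - (u j).rootMultiplicity t)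

/-- The statement for sums with small coefficients. -/
def V (N n r : ℕ) : Prop :=
  ∀ (K : Type) [Field K] [IsAlgClosed K] (p : ℕ) [ExpChar K p] (ι : Type) (I I' : Finset ι)
    (A : Finset K) (u ξ : ι → K[X]), #I' ≤ N → (∀ i ∈ I, ξ i ≠ 0 → i ∈ I') → #A ≤ n →
    (∀ i ∈ I, u i ≠ 0 ∧ ∀ t, (u i).IsRoot t → t ∈ A) → (∀ i, (ξ i).natDegree ≤ n) →
    ∑ i ∈ I, ξ i * u i = 0 → ∀ i ∈ I, ξ i ≠ 0 → ∃ B ⊆ I, i ∈ B ∧ (∀ b ∈ B, ξ b ≠ 0) ∧
      ∑ i ∈ B, ξ i * u i = 0 ∧
      ∀ a ∈ B, ∀ b ∈ B, ∀ t, Str p r ((u a).rootMultiplicity t - (u b).rootMultiplicity t)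

theorem U.toV {N n r : ℕ} (h : U N (n + N * n) r) : V N n (r + n) := by
  intro K _ _ p _ ι I I' A u ξ h1 h2 h3 h4 h5 h6 i hi h7
  classical
  have h8 : ∑ i ∈ I.filter (ξ · ≠ 0), ξ i * u i = 0 := by
    rw [sum_filter_of_ne fun i _ h9 => left_ne_zero_of_mul h9, h6]
  obtain ⟨B, b1, b2, b3, b4⟩ := block h8 (mem_filter.2 ⟨hi, h7⟩)
  have b5 : ∀ b ∈ B, b ∈ I ∧ ξ b ≠ 0 := fun b hb => mem_filter.1 (b1 hb)
  have b6 : #B ≤ N := (card_le_card fun b hb => h2 b (b5 b hb).1 (b5 b hb).2).trans h1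
  have b7 : ∀ b ∈ B, ξ b * u b ≠ 0 := fun b hb => mul_ne_zero (b5 b hb).2 (h4 b (b5 b hb).1).1
  refine ⟨B, fun b hb => (b5 b hb).1, b2, fun b hb => (b5 b hb).2, b3, fun a ha b hb t => ?_⟩
  have := h K p ι B (A ∪ B.biUnion fun b => (ξ b).roots.toFinset) (fun b => ξ b * u b) b6
    ((card_union_le _ _).trans (add_le_add h3 ((card_biUnion_le_card_mul _ _ n fun b _ =>
      (Multiset.toFinset_card_le _).trans ((card_roots' _).trans (h5 b))).trans
      (Nat.mul_le_mul_right _ b6))))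
    (fun b hb => ⟨b7 b hb, fun t ht => mem_union.2 ((root_or_root_of_root_mul ht).symm.imp
      ((h4 b (b5 b hb).1).2 t) fun h9 => mem_biUnion.2 ⟨b, hb,
        Multiset.mem_toFinset.2 ((mem_roots (b5 b hb).2).2 h9)⟩)⟩) b3 b4 a ha b hb t
  rw [rootMultiplicity_mul (b7 a ha), rootMultiplicity_mul (b7 b hb)] at this
  have c1 := (rm_le (ξ a) t).trans (h5 a)
  have c2 := (rm_le (ξ b) t).trans (h5 b)
  have c3 := this.add (Str.of_abs p (r := n)
    (z := (ξ b).rootMultiplicity t - (ξ a).rootMultiplicity t) (by rw [abs_le]; omega))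
  convert c3 using 1
  push_cast
  ring

theorem V.toU {N n r : ℕ} (h : V N n r) : U (N + 1) n (r + r + (r + r)) := by
  intro K _ _ p _ ι I A u h1 h2 h3 h4 h5
  classical
  obtain ⟨m, hm⟩ : ∃ m, ∀ i ∈ I, ∀ t, (u i).rootMultiplicity t ≤ m :=
    ⟨I.sup fun i => (u i).natDegree, fun i hi t => (rm_le _ t).trans
      (le_sup (f := fun i => (u i).natDegree) hi)⟩
  induction m generalizing u with
  | zero =>
    intro i hi j hj t
    rw [Nat.le_zero.1 (hm i hi t), Nat.le_zero.1 (hm j hj t), sub_self]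
    exact Str.zero _ _
  | succ m ih =>
  intro i₀ hi₀
  let e : ι → K → ℕ := fun i t => (u i).rootMultiplicity t
  have hf : ∀ i ∈ I, u i = C (u i).leadingCoeff * mo A id (e i) := fun i hi =>
    fac (h3 i hi).1 (h3 i hi).2
  have he : ∀ i ∈ I, ∀ t ∉ A, e i t = 0 := fun i hi t ht =>
    rootMultiplicity_eq_zero fun h' => ht ((h3 i hi).2 t h')
  let η : ι → K[X] := fun i => ld A (e i) - ld A (e i₀)
  by_cases hη : ∀ i ∈ I, η i = 0
  · have hc : ∀ i ∈ I, ∀ t, (e i t : K) = e i₀ t := fun i hi t => by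
      by_cases ht : t ∈ A
      · exact ld_inj (sub_eq_zero.1 (hη i hi)) ht
      · rw [he i hi t ht, he i₀ hi₀ t ht]
    intro j hj t
    rcases ‹ExpChar K p› with _ | hp
    · rw [show (u j).rootMultiplicity t = (u i₀).rootMultiplicity t from Nat.cast_injective
        (hc j hj t), sub_self]
      exact Str.zero _ _
    have hc' : ∀ i ∈ I, ∀ t, e i t % p = e i₀ t % p := fun i hi t =>
      (CharP.natCast_eq_natCast K p).1 (hc i hi t)
    choose c hc1 using fun i => IsAlgClosed.exists_pow_nat_eq (u i).leadingCoeff hp.pos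
    have hc2 : ∀ i ∈ I, c i ≠ 0 := fun i hi h' => (h3 i hi).1 (leadingCoeff_eq_zero.1 (by
      rw [← hc1, h', zero_pow hp.ne_zero]))
    let v : ι → K[X] := fun i => C (c i) * mo A id fun t => e i t / p
    have hv : ∀ B ⊆ I, ∑ i ∈ B, u i = mo A id (fun t => e i₀ t % p) * (∑ i ∈ B, v i) ^ p :=
      fun B hB => by
        have : ExpChar K p := .prime hp
        rw [sum_pow_char p, mul_sum]
        refine sum_congr rfl fun i hi => (hf i (hB hi)).trans ?_
        rw [mul_pow, ← C_pow, hc1, mul_left_comm, mo, mo, mo, ← prod_pow, ← prod_mul_distrib]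
        refine congrArg _ (prod_congr rfl fun t _ => ?_)
        rw [← pow_mul, ← pow_add, ← hc' i (hB hi), Nat.mod_add_div']
    have hr : ∀ i ∈ I, ∀ t, (v i).rootMultiplicity t = e i t / p := fun i hi t => by
      by_cases ht : t ∈ A
      · exact rm_mo (Set.injOn_id _) _ (hc2 i hi) ht
      · rw [he i hi t ht, Nat.zero_div]
        refine rootMultiplicity_eq_zero fun h' => ?_
        obtain ⟨j, a1, a2⟩ := root_mo (hc2 i hi) h'
        exact ht (a2 ▸ a1)
    have := (ih v (fun i hi => ⟨mul_ne_zero (C_ne_zero.2 (hc2 i hi)) (mo_monic _ _ _).ne_zero,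
      fun t ht => by obtain ⟨j, a1, a2⟩ := root_mo (hc2 i hi) ht; exact a2 ▸ a1⟩)
      (pow_eq_zero_iff'.1 ((mul_eq_zero.1 ((hv I Subset.rfl).symm.trans h4)).resolve_left
        (mo_monic _ _ _).ne_zero)).1
      (fun B a1 a2 a3 => h5 B a1 a2 (by rw [hv B a1.1, a3, zero_pow hp.ne_zero, mul_zero]))
      (fun i hi t => by
        rw [hr i hi]
        exact Nat.lt_succ_iff.1 (Nat.div_lt_of_lt_mul (by
          have := hm i hi t
          have := hp.two_le
          change e i t ≤ _ at *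
          nlinarith))) i₀ hi₀ j hj t).mul_p
    rw [hr _ hi₀, hr _ hj] at this
    convert this using 1
    have a1 := Nat.div_add_mod (e i₀ t) p
    have a2 := Nat.div_add_mod (e j t) p
    rw [hc' j hj] at a2
    change (e i₀ t : ℤ) - e j t = _
    zify at a1 a2
    push_cast
    linear_combination a2 - a1
  push Not at hη
  obtain ⟨j₀, hj₀, hη⟩ := hη
  have hd : ∀ i j, (η i - η j).natDegree ≤ n := fun i j => by
    rw [show η i - η j = ld A (e i) - ld A (e j) by simp [η]]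
    exact (natDegree_sub_le _ _).trans (max_le ((natDegree_ld _ _).trans h2)
      ((natDegree_ld _ _).trans h2))
  have hd' : ∀ i, (η i).natDegree ≤ n := fun i => by simpa [η] using hd i i₀
  have hN : ∀ i ∈ I, #(I.erase i) ≤ N := fun i hi => by
    rw [card_erase_of_mem hi]
    omega
  have hs : ∑ i ∈ I, η i * u i = 0 := by
    have : ∀ i ∈ I, η i * u i = (∏ t ∈ A, (X - C t)) * derivative (u i) - ld A (e i₀) * u i :=
      fun i hi => by
        rw [hf i hi, derivative_C_mul, mul_left_comm (∏ t ∈ A, (X - C t)), mul_deriv_mo]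
        simp only [η]
        ring
    rw [sum_congr rfl this, sum_sub_distrib, ← mul_sum, ← mul_sum, ← derivative_sum, h4]
    simp
  obtain ⟨B₀, a1, a2, a3, a4, a5⟩ := h K p ι I (I.erase i₀) A u η (hN _ hi₀)
    (fun i hi h' => mem_erase.2 ⟨fun h'' => h' (by simp [η, h'']), hi⟩) h2 h3 hd' hs j₀ hj₀ hη
  have key : ∀ i ∈ I, ∀ t, Str p (r + r) (e i t - e j₀ t) := fun i hi t => by
    by_cases hB : i ∈ B₀
    · exact (a5 i hB j₀ a2 t).mono (Nat.le_add_right _ _)
    let ξ : ι → K[X] := fun i => η j₀ - if i ∈ B₀ then η i else 0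
    have b0 : ξ j₀ = 0 := by simp [ξ, a2]
    obtain ⟨B, b1, b2, b3, b4, b5⟩ := h K p ι I (I.erase j₀) A u ξ (hN _ hj₀)
      (fun i hi h' => mem_erase.2 ⟨fun h'' => h' (h'' ▸ b0), hi⟩) h2 h3
      (fun i => by
        simp only [ξ]
        split_ifs
        · exact hd _ _
        · simpa using hd' j₀)
      (by
        simp only [ξ, sub_mul, ite_mul, zero_mul]
        rw [sum_sub_distrib, ← mul_sum, h4, sum_ite_mem, inter_eq_right.2 a1, a4]
        simp) i hi (by simpa [ξ, hB] using hη)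
    obtain ⟨b, c1, c2⟩ : ∃ b ∈ B, b ∈ B₀ := by
      by_contra! hc
      refine h5 B ⟨b1, fun h' => hc j₀ (h' hj₀) a2⟩ ⟨i, b2⟩ ?_
      rw [sum_congr rfl fun b hb => show ξ b * u b = η j₀ * u b by simp [ξ, hc b hb],
        ← mul_sum] at b4
      exact (mul_eq_zero.1 b4).resolve_left hη
    simpa using (b5 i b2 b c1 t).add (a5 b c2 j₀ a2 t)
  intro j hj t
  simpa using (key i₀ hi₀ t).sub (key j hj t)

theorem exists_V (N : ℕ) : ∀ n, ∃ r, V N n r := by
  suffices ∀ n, ∃ r, U N n r from fun n => (this _).elim fun r h => ⟨_, h.toV⟩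
  induction N with
  | zero =>
    refine fun n => ⟨0, fun K _ _ p _ ι I A u h1 _ _ _ _ i hi => ?_⟩
    rw [card_eq_zero.1 (Nat.le_zero.1 h1)] at hi
    exact absurd hi (notMem_empty _)
  | succ N ih => exact fun n => (ih _).elim fun r h => ⟨_, h.toV.toU⟩

theorem twice {B : Finset ι} {v : ι → K[X]} (h0 : B.Nonempty) (h1 : ∀ b ∈ B, v b ≠ 0)
    (h2 : ∑ b ∈ B, v b = 0) (t : K) :
    ∃ a ∈ B, ∃ b ∈ B, a ≠ b ∧ (v a).rootMultiplicity t = (v b).rootMultiplicity t := by
  classical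
  obtain ⟨a, ha, hm⟩ := exists_min_image B (fun b => (v b).rootMultiplicity t) h0
  by_contra! hc
  have h3 : (X - C t) ^ ((v a).rootMultiplicity t + 1) ∣ ∑ b ∈ B.erase a, v b :=
    dvd_sum fun b hb => (le_rootMultiplicity_iff (h1 b (mem_of_mem_erase hb))).1
      (lt_of_le_of_ne (hm b (mem_of_mem_erase hb))
        (hc a ha b (mem_of_mem_erase hb) (mem_erase.1 hb).1.symm))
  rw [← add_sum_erase _ _ ha, add_eq_zero_iff_neg_eq] at h2
  rw [← h2, dvd_neg] at h3
  exact pow_rootMultiplicity_not_dvd (h1 a ha) t h3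

end Pool.Agent.Lib.MP_a8c702_nt.LT
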