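import Pool.Agent.Lib.MP_a8c702_nt.LT.Fin

/-! Lines and finite groups of characters. -/

namespace Pool.Agent.Lib.MP_a8c702_nt.LT

open Finset

variable {K G : Type} [Field K] [CommGroup G] {h : ℕ}

theorem ex_sub (β β' : Fin h → ℤ) : ex (β - β') = ex β - ex β' := funext fun j =>
  Fin.cases (by simp [ex, sum_sub_distrib]; ring) (fun _ => rfl) j

theorem prod_zp {J : Type} {d : K} (hd : d ≠ 0) (A : Finset J) (l : J → ℤ) :
    ∏ j ∈ A, d ^ l j = d ^ ∑ j ∈ A, l j := by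
  induction A using Finset.cons_induction with
  | empty => simp
  | cons a A ha ih => rw [prod_cons, sum_cons, ih, zpow_add₀ hd]

theorem card_hom (K G : Type) [Field K] [CommGroup G] [Finite G] :
    Nat.card (G →* Kˣ) ≤ Nat.card G := by
  have := Fintype.ofFinite G
  have := Fintype.ofFinite (G →* Kˣ)
  have h1 := ((linearIndependent_monoidHom G K).comp (fun f : G →* Kˣ => (Units.coeHom K).comp f)
    fun f g e => MonoidHom.ext fun x => Units.ext (DFunLike.congr_fun e x)).fintype_card_le_finrank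
  simpa using h1

theorem inv (h D : ℕ) (hh : 2 ≤ h) (hD : 0 < D) : ∃ C : ℕ, ∀ (K : Type) [Field K] [IsAlgClosed K]
    (p : ℕ) [ExpChar K p] (G : Type) [CommGroup G] [Finite G] (a b u : Fin (h + 1) → K)
    (ρ : Fin (h + 1) → G →* Kˣ) (A : Finset G), (∀ j k, j ≠ k → a j * b k ≠ a k * b j) →
    (∀ j, u j ≠ 0) → (∀ g, (∀ j k, ρ j g = ρ k g) → g = 1) →
    (∀ g ∈ A, ∃ x y : K, ∀ j, u j * ρ j g = a j * x + b j * y) → C < #A →
    Nat.card G < (D * #A) ^ h →
    ∃ (e I : ℕ) (σ : Equiv.Perm (Fin (h + 1))), ∃ A₀ ⊆ A, #A ≤ #A₀ + C ∧ #A₀ ≤ p ^ e + 1 ∧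
      1 < p ^ e ∧ p ^ e ≤ C * #A ∧ 0 < I ∧ (p ^ e - h) ^ h ≤ I * Nat.card G ∧
      I * (D * #A) ≤ (D + 1) * (p ^ e - h) ∧ ∀ g ∈ A₀, ∀ g' ∈ A₀, ∀ k,
        (ρ k (g / g') / ρ 0 (g / g')) ^ p ^ e = ρ (σ k) (g / g') / ρ (σ 0) (g / g') := by
  obtain ⟨C, h1⟩ := main h D hh hD
  refine ⟨C + 1, fun K _ _ p _ G _ _ a b u ρ A hab hu hρ hA hs hG => ?_⟩
  classical
  choose! x y hxy using hA
  obtain ⟨g₀, hg₀⟩ := card_pos.1 (show 0 < #A by omega)
  have := Fintype.ofFinite (G →* Kˣ)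
  let d : G → K := fun g => x g₀ * y g - y g₀ * x g
  let θ : Fin (h + 1) → K := fun j =>
    (a j * b 0 - a 0 * b j) / ((u 0 * ρ 0 g₀) * (u j * ρ j g₀))
  let ξ : G → K := fun g => ρ 0 (g / g₀) / d g
  have a0 : ∀ j g, u j * ρ j g ≠ 0 := fun j g => mul_ne_zero (hu j) (Units.ne_zero _)
  have a1 : ∀ g ∈ A, ∀ j, (ρ 0 (g / g₀) : K) - ρ j (g / g₀) = θ j * d g := fun g hg j => by
    have e : ∀ j, (ρ j (g / g₀) : K) = (u j * ρ j g) / (u j * ρ j g₀) := fun j => by
      rw [mul_div_mul_left _ _ (hu j), map_div, Units.val_div_eq_div_val]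
    rw [e, e, div_sub_div _ _ (a0 _ _) (a0 _ _), div_mul_eq_mul_div]
    simp only [hxy g hg, hxy g₀ hg₀, d]
    congr 1
    ring
  have a2 : ∀ g ∈ A.erase g₀, d g ≠ 0 := fun g hg e => (mem_erase.1 hg).1 (div_eq_one.1 (hρ _
    fun j k => Units.ext (by
      linear_combination a1 g (mem_of_mem_erase hg) k - a1 g (mem_of_mem_erase hg) j +
        (θ k - θ j) * e)))
  have a3 : ∀ g ∈ A.erase g₀, ∀ j, ξ g - θ j = ρ j (g / g₀) / d g := fun g hg j => by
    rw [eq_div_iff (a2 g hg), sub_mul, div_mul_cancel₀ _ (a2 g hg), ← a1 g (mem_of_mem_erase hg)]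
    ring
  have a4 : ∀ j g g', (ρ j (g / g') : K) = ρ j (g / g₀) / ρ j (g' / g₀) := fun j g g' => by
    rw [← Units.val_div_eq_div_val, ← map_div, div_div_div_cancel_right]
  have a5 : Set.InjOn ξ (A.erase g₀) := fun g hg g' hg' e => div_eq_one.1 (hρ _ fun j k =>
    Units.ext (by
      have : ∀ j, (ρ j (g / g') : K) = d g / d g' := fun j => by
        have := (a3 g hg j).symm.trans (e ▸ a3 g' hg' j)
        rw [div_eq_div_iff (a2 g hg) (a2 g' hg')] at this
        rw [a4, div_eq_div_iff (Units.ne_zero _) (a2 g' hg'), this, mul_comm]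
      rw [this, this]))
  have hg : Gen θ ((A.erase g₀).image ξ) := ⟨fun j k e => by_contra fun hjk => hab j k hjk (by
    rw [div_eq_div_iff (mul_ne_zero (a0 _ _) (a0 _ _)) (mul_ne_zero (a0 _ _) (a0 _ _))] at e
    refine mul_left_cancel₀ (mul_ne_zero (a0 0 g₀) (a0 0 g₀)) ?_
    simp only [hxy g₀ hg₀] at e ⊢
    linear_combination e), fun t ht j => by
      obtain ⟨g, hg, rfl⟩ := mem_image.1 ht
      exact sub_ne_zero.1 (a3 g hg j ▸ div_ne_zero (Units.ne_zero _) (a2 g hg))⟩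
  have a6 : #((A.erase g₀).image ξ) + 1 = #A := by
    rw [card_image_of_injOn a5, card_erase_add_one hg₀]
  obtain ⟨e, I, σ, S₀, b1, b2, b3, b4, b5, b6, b7, b8, b9⟩ := h1 K p θ _ (G →* Kˣ) (fun β => ∏ j, ρ j ^ ex β j) hg
    (by omega) (fun β β' e => ⟨sum_ex _, 1, one_ne_zero, fun t ht h' => by
      obtain ⟨g, hg, rfl⟩ := mem_image.1 ht
      have e1 : ∀ β, ch θ (ξ g) (ex β) = (∏ j, ρ j ^ ex β j) (g / g₀) := fun β => by
        simp only [ch, a3 g hg, div_zpow, prod_div_distrib]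
        rw [prod_zp (a2 g hg), sum_ex]
        simp
      rw [ex_sub, sub_eq_add_neg, ch_add h', ch_neg, e1, e1, e, mul_inv_cancel₀ (Units.ne_zero _)]⟩)
    (by rw [a6]; exact (Nat.card_eq_fintype_card.symm.trans_le (card_hom K G)).trans_lt hG)
  have c1 : #((A.erase g₀).filter fun g => ξ g ∈ S₀) = #S₀ :=
    card_nbij ξ (fun g hg => (mem_filter.1 hg).2) (a5.mono fun g hg => (mem_filter.1 hg).1)
      fun t ht => by
        obtain ⟨g, hg, rfl⟩ := mem_image.1 (b1 ht)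
        exact ⟨g, mem_coe.2 (mem_filter.2 ⟨hg, ht⟩), rfl⟩
  refine ⟨e, I, σ, (A.erase g₀).filter fun g => ξ g ∈ S₀,
    (filter_subset _ _).trans (erase_subset _ _), by omega, by omega, b4,
    b5.trans (Nat.mul_le_mul (by omega) (by omega)), b7, b8.trans (Nat.mul_le_mul_left _
      (Nat.card_eq_fintype_card.symm.trans_le (card_hom K G))), a6 ▸ b9,
    fun g h2 g' h3 k => Units.ext ?_⟩
  obtain ⟨-, c, -, c2⟩ := b6 k
  have c3 : ∀ g ∈ (A.erase g₀).filter fun g => ξ g ∈ S₀, ((ρ k (g / g₀) : K) / ρ 0 (g / g₀)) ^ p ^ e =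
      c * (ρ (σ k) (g / g₀) / ρ (σ 0) (g / g₀)) := fun g h2 => by
    obtain ⟨h2, h3⟩ := mem_filter.1 h2
    have h4 := hg.2 _ (b1 h3)
    have := c2 _ h3 h4
    rw [sub_eq_add_neg, ch_add h4, ch_neg, ch_zsmul, ch_dv h4, ch_dv h4, ← Nat.cast_pow,
      zpow_natCast] at this
    simp only [a3 g h2, div_div_div_cancel_right₀ (a2 g h2)] at this
    rw [← this, inv_mul_cancel_right₀ (div_ne_zero (Units.ne_zero _) (Units.ne_zero _))]
  have c4 : c ≠ 0 := left_ne_zero_of_mul (c3 g h2 ▸ pow_ne_zero _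
    (div_ne_zero (Units.ne_zero _) (Units.ne_zero _)))
  simp only [Units.val_pow_eq_pow_val, Units.val_div_eq_div_val, a4 _ g g']
  rw [div_div_div_comm, div_pow, c3 g h2, c3 g' h3, mul_div_mul_left _ _ c4, div_div_div_comm]

open Polynomial in
theorem sidon {a b u : Fin (h + 1) → K} {ρ : Fin (h + 1) → G →* Kˣ} {A : Finset G} (hh : 1 ≤ h)
    (hab : ∀ j k, j ≠ k → a j * b k ≠ a k * b j) (hu : ∀ j, u j ≠ 0)
    (hρ : ∀ g, (∀ j k, ρ j g = ρ k g) → g = 1)
    (hA : ∀ g ∈ A, ∃ x y : K, ∀ j, u j * ρ j g = a j * x + b j * y) (s t : Multiset G)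
    (hs : ∀ g ∈ s, g ∈ A) (ht : ∀ g ∈ t, g ∈ A) (cs : s.card = h) (ct : t.card = h)
    (e : s.prod = t.prod) : s = t := by
  classical
  obtain ⟨k, hk⟩ : ∃ k : Fin (h + 1), k ≠ 0 := ⟨Fin.last h, by simp [Fin.ext_iff]; omega⟩
  let Δ : Fin (h + 1) → K := fun j => a 0 * b j - a j * b 0
  have a0 : ∀ j ≠ 0, Δ j ≠ 0 := fun j hj => sub_ne_zero.2 (hab 0 j hj.symm)
  let ξ : G → K := fun g => u k * (ρ k / ρ 0) g / Δ k
  let τ : Fin h → K := fun j => (a k * b j.succ - a j.succ * b k) * u 0 / (Δ k * Δ j.succ)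
  have a1 : ∀ g ∈ A, ∀ j, τ j - ξ g = -u j.succ / Δ j.succ * (ρ j.succ / ρ 0) g := fun g hg j => by
    obtain ⟨x, y, h1⟩ := hA g hg
    have := a0 k hk
    have := a0 _ j.succ_ne_zero
    simp only [τ, ξ, MonoidHom.div_apply, Units.val_div_eq_div_val]
    field_simp
    simp only [Δ]
    linear_combination (a k * b j.succ - a j.succ * b k) * h1 0 -
      (a 0 * b j.succ - a j.succ * b 0) * h1 k + (a 0 * b k - a k * b 0) * h1 j.succ
  have a2 : ∀ s : Multiset G, (∀ g ∈ s, g ∈ A) → ∀ j, ((s.map ξ).map fun a => X - C a).prod.eval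
      (τ j) = (-u j.succ / Δ j.succ) ^ s.card * (ρ j.succ / ρ 0) s.prod := fun s hs j => by
    induction s using Multiset.induction_on with
    | empty => simp
    | cons g s ih =>
      rw [Multiset.map_cons, Multiset.map_cons, Multiset.prod_cons, eval_mul,
        ih fun g hg => hs g (Multiset.mem_cons_of_mem hg), eval_sub, eval_X, eval_C,
        a1 g (hs g (Multiset.mem_cons_self _ _)), Multiset.prod_cons, map_mul, Units.val_mul,
        Multiset.card_cons]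
      ring
  have a3 : τ.Injective := fun i j e => by_contra fun hij => by
    have := a0 k hk
    have := a0 _ i.succ_ne_zero
    have := a0 _ j.succ_ne_zero
    have := hu 0
    simp only [τ] at e
    field_simp at e
    refine hab _ _ (fun e => hij (Fin.succ_injective _ e)) (mul_left_cancel₀ (a0 k hk) ?_)
    simp only [Δ] at e ⊢
    linear_combination -e
  have a4 := fun s : Multiset G => monic_multiset_prod_of_monic (s.map ξ) (fun a => X - C a)
    fun a _ => monic_X_sub_C a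
  have a5 : ((s.map ξ).map fun a => X - C a).prod = ((t.map ξ).map fun a => X - C a).prod := by
    refine sub_eq_zero.1 (eq_zero_of_degree_lt_of_eval_index_eq_zero univ a3.injOn ?_ fun j _ => by
      rw [eval_sub, a2 s hs, a2 t ht, cs, ct, e, sub_self])
    refine (degree_sub_lt_left ?_ (a4 s).ne_zero ((a4 s).trans (a4 t).symm)).trans_le ?_
    · rw [degree_eq_natDegree (a4 s).ne_zero, degree_eq_natDegree (a4 t).ne_zero,
        natDegree_multiset_prod_X_sub_C_eq_card, natDegree_multiset_prod_X_sub_C_eq_card]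
      simp [cs, ct]
    · rw [degree_eq_natDegree (a4 s).ne_zero, natDegree_multiset_prod_X_sub_C_eq_card]
      simp [cs]
  have a6 := congrArg roots a5
  rw [roots_multiset_prod_X_sub_C, roots_multiset_prod_X_sub_C] at a6
  suffices Set.InjOn ξ A by
    have a7 : ∀ s : Multiset G, (∀ g ∈ s, g ∈ A) → (s.map ξ).map (Function.invFunOn ξ A) = s :=
      fun s hs => (Multiset.map_map _ _ _).trans ((Multiset.map_congr rfl fun g hg =>
        this.leftInvOn_invFunOn (hs g hg)).trans s.map_id')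
    rw [← a7 s hs, a6, a7 t ht]
  intro g hg g' hg' e
  have : ∀ j, ρ j (g / g') = ρ 0 (g / g') := fun j => Fin.cases rfl (fun j => by
    have := Units.ext (mul_left_cancel₀ (div_ne_zero (neg_ne_zero.2 (hu _)) (a0 _ j.succ_ne_zero))
      ((a1 g hg j).symm.trans (e ▸ a1 g' hg' j)))
    rw [← div_eq_one, ← MonoidHom.div_apply, _root_.map_div, this, div_self']) j
  exact div_eq_one.1 (hρ _ fun j k => (this j).trans (this k).symm)

/-- The statement over an arbitrary field. -/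
theorem inv' (h D : ℕ) (hh : 2 ≤ h) (hD : 0 < D) : ∃ C : ℕ, ∀ (K : Type) [Field K] (G : Type)
    [CommGroup G] [Finite G] (a b u : Fin (h + 1) → K) (ρ : Fin (h + 1) → G →* Kˣ) (A : Finset G),
    (∀ j k, j ≠ k → a j * b k ≠ a k * b j) → (∀ j, u j ≠ 0) → (∀ g, (∀ j k, ρ j g = ρ k g) → g = 1) →
    (∀ g ∈ A, ∃ x y : K, ∀ j, u j * ρ j g = a j * x + b j * y) → C < #A →
    Nat.card G < (D * #A) ^ h →
    ∃ (p e I : ℕ) (σ : Equiv.Perm (Fin (h + 1))), ∃ A₀ ⊆ A, p.Prime ∧ CharP K p ∧ 0 < e ∧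
      #A ≤ #A₀ + C ∧ #A₀ ≤ p ^ e + 1 ∧ p ^ e ≤ C * #A ∧ 0 < I ∧
      (p ^ e - h) ^ h ≤ I * Nat.card G ∧ I * (D * #A) ≤ (D + 1) * (p ^ e - h) ∧
      ∀ g ∈ A₀, ∀ g' ∈ A₀, ∀ k,
        (ρ k (g / g') / ρ 0 (g / g')) ^ p ^ e = ρ (σ k) (g / g') / ρ (σ 0) (g / g') := by
  obtain ⟨C, h1⟩ := inv h D hh hD
  refine ⟨C, fun K _ G _ _ a b u ρ A hab hu hρ hA hs hG => ?_⟩
  obtain ⟨p, hp⟩ := ExpChar.exists K
  let f := algebraMap K (AlgebraicClosure K)
  have hf := Units.map_injective (f := (f : K →* AlgebraicClosure K)) f.injective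
  have := expChar_of_injective_ringHom f.injective p
  obtain ⟨e, I, σ, A₀, a1, a2, a3, a4, a5, a6, a7, a8, a9⟩ := h1 _ p G (f ∘ a) (f ∘ b) (f ∘ u)
    (fun j => (Units.map (f : K →* AlgebraicClosure K)).comp (ρ j)) A
    (fun j k hjk e => hab j k hjk (f.injective (by simpa using e)))
    (fun j => (map_ne_zero f).2 (hu j)) (fun g e => hρ g fun j k => hf (e j k))
    (fun g hg => (hA g hg).elim fun x e => e.elim fun y e => ⟨f x, f y, fun j => by
      simpa using congrArg f (e j)⟩) hs hG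
  rcases hp with _ | hp
  · simp at a4
  · exact ⟨p, e, I, σ, A₀, a1, hp, inferInstance, Nat.pos_of_ne_zero fun e => by simp [e] at a4,
      a2, a3, a5, a6, a7, a8, fun g h2 g' h3 k => hf (by
        simpa only [map_pow, map_div, MonoidHom.comp_apply] using a9 g h2 g' h3 k)⟩

theorem three_four (hh : 2 ≤ h) : 4 ^ h ≤ 2 ^ (h - 1) * 3 ^ h := by
  induction h, hh using Nat.le_induction with
  | base => norm_num
  | succ n hn ih =>
    obtain ⟨n, rfl⟩ : ∃ m, n = m + 1 := ⟨n - 1, by omega⟩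
    rw [Nat.add_sub_cancel] at ih ⊢
    rw [pow_succ 4, pow_succ 2, pow_succ 3 (n + 1)]
    linarith [Nat.zero_le (2 ^ n * 3 ^ (n + 1))]

theorem one_of {I R M s : ℕ} (hh : 2 ≤ h) (h0 : 0 < I) (h1 : R ^ h ≤ I * M)
    (h2 : I * (3 * s) ≤ 4 * R) (h3 : M < s ^ h) : I = 1 := by
  by_contra hI
  have c4 := Nat.pow_le_pow_left h2 h
  have c5 := three_four hh
  obtain ⟨h', rfl⟩ : ∃ h', h = h' + 1 := ⟨h - 1, by omega⟩
  rw [mul_pow, mul_pow, mul_pow, pow_succ' I] at c4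
  rw [Nat.add_sub_cancel] at c5
  have c6 := Nat.mul_le_mul_left (4 ^ (h' + 1)) h1
  have c7 := Nat.mul_lt_mul_of_pos_left h3 (show 0 < 4 ^ (h' + 1) * I by positivity)
  have c8 := Nat.mul_le_mul_left (I * s ^ (h' + 1)) (c5.trans (Nat.mul_le_mul_right _
    (Nat.pow_le_pow_left (show 2 ≤ I by omega) h')))
  linarith

end Pool.Agent.Lib.MP_a8c702_nt.LT
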